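import Pool.Agent.Y916.Af.Gs
import Pool.Agent.Q246.NR.GK

/-!
# Families of G-functions at algebraic points: few near relations of arbitrary height

The proofs are those of helper547 (`liC`, `famC`, `t_fam`) and of `Y916.Af.Gs`, with `GKN` in place of `t_GK`.
-/

set_option autoImplicit false
set_option maxHeartbeats 400000

open PowerSeries Module

namespace Pool.Agent.Q246.AF

open Pool.Agent.Y113 Pool.Agent.Y120.GF Pool.Agent.Y120.GH Pool.Agent.Y916.Al Pool.Agent.Y118.UL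
  Pool.Agent.Y916.Af Pool.Agent.Y547.AF

/-- the near version of (FAM) -/
def FAMN {r : ℕ} (h : Fin r → ℚ⟦X⟧) : Prop :=
  ∃ G0 : ℕ, 1 ≤ G0 ∧ ∀ G : ℕ, G0 ≤ G → ∀ I : Finset (Fin r), AlgebraicIndependent (Polynomial ℚ) (fun i : I => h i) →
  ∀ δ : ℕ, ∃ B : Finset (Fin δ → Option (Fin r)), (Mon δ I).card ≤ B.card ∧ ∀ N d A : ℕ, ∃ E Bx : ℕ, ∀ (H : ℕ)
  (K : IntermediateField ℚ ℂ) (ξ : K) (X : ℝ), FiniteDimensional ℚ K → finrank ℚ K ≤ d → Pt K ξ X →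
  ((H : ℝ) + 2) ^ E ≤ ‖(ξ : ℂ)‖ → X ≤ ‖(ξ : ℂ)‖ ^ A → ∀ g : Fin N → ℕ, Function.Injective g →
  (∀ l, 1 ≤ g l ∧ g l ≤ H) → ∃ c : ℝ, 0 < c ∧ ∀ (n : ℕ) (a : Fin n → (Fin N → B × Fin (δ + 1)) → ℤ) (A₁ δ₁ : ℝ),
  LinearIndependent ℚ (fun i b => (a i b : ℚ)) → 1 ≤ A₁ → 0 ≤ δ₁ → (∀ i b, |((a i b : ℤ) : ℝ)| ≤ A₁) →
  (∀ i, ‖∑ b, ((a i b : ℤ) : ℂ) * ∏ l, (yw (fun j => vc G h ξ (g l) (some j)) (b l).1.1 *
    vc G h ξ (g l) none ^ ((b l).2 : ℕ))‖ ≤ δ₁) →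
  2 * A * d * (Fintype.card (Fin N → B × Fin (δ + 1)) - n) ≤ Fintype.card (Fin N → B × Fin (δ + 1)) → c ≤ δ₁ * A₁ ^ Bx

theorem liN {σ : Type} [Fintype σ] {F : ℕ → σ → ℚ⟦X⟧} {Tg : ℕ → Polynomial ℤ} {q₀ E₀ c : ℕ} {b₀ : σ}
    (one : ∀ g, F g b₀ = 1) (sys : ∀ g : ℕ, GSys q₀ (((g : ℝ) + 2) ^ E₀) (Tg g) (F g))
    (ne : ∀ (g : ℕ) (ξ : ℂ), (g : ℝ) + c < ‖ξ‖ → Polynomial.aeval (1 / ξ) (Tg g) ≠ 0) (N d A : ℕ) :
    ∃ E Bx : ℕ, ∀ (H : ℕ) (K : IntermediateField ℚ ℂ) (ξ : K) (X : ℝ), FiniteDimensional ℚ K →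
      Module.finrank ℚ K ≤ d → Pt K ξ X → ((H : ℝ) + 2) ^ E ≤ ‖(ξ : ℂ)‖ → X ≤ ‖(ξ : ℂ)‖ ^ A →
      ∀ g : Fin N → ℕ, (∀ l, g l ≤ H) →
      LinearIndependent (Polynomial ℚ) (fun b : Fin N → σ => ∏ l, F (g l) (b l)) →
      ∃ c' : ℝ, 0 < c' ∧ ∀ (n : ℕ) (a : Fin n → (Fin N → σ) → ℤ) (A₁ δ₁ : ℝ),
      LinearIndependent ℚ (fun i b => (a i b : ℚ)) → 1 ≤ A₁ → 0 ≤ δ₁ → (∀ i b, |((a i b : ℤ) : ℝ)| ≤ A₁) →
      (∀ i, ‖∑ b, ((a i b : ℤ) : ℂ) * ∏ l, evc (1 / (ξ : ℂ)) (F (g l) (b l))‖ ≤ δ₁) →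
      2 * A * d * (Fintype.card (Fin N → σ) - n) ≤ Fintype.card (Fin N → σ) → c' ≤ δ₁ * A₁ ^ Bx := by
  classical
  obtain ⟨q, E₁, hE₁⟩ := gsys_multi F Tg q₀ E₀ sys N
  obtain ⟨E₂, Bx, hE₂⟩ := Pool.Agent.Q246.NR.GKN d A (Fintype.card (Fin N → σ)) q
  refine ⟨(max E₁ 1 + 1) * max E₂ 1 + (E₀ + 2) + (c + 1), Bx, ?_⟩
  intro H K ξ X hK hd hPt htR hXA g hgH hli
  set t : ℝ := ‖(ξ : ℂ)‖ with ht
  have hH0 : (0 : ℝ) ≤ (H : ℝ) := by positivity
  have hH2 : (2 : ℝ) ≤ (H : ℝ) + 2 := by linarith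
  have hH1 : (1 : ℝ) ≤ (H : ℝ) + 2 := by linarith
  have hb1 : ((H : ℝ) + 2) ^ ((max E₁ 1 + 1) * max E₂ 1) ≤ t :=
    (pow_le_pow_right₀ hH1 (by omega)).trans htR
  have hb2 : ((H : ℝ) + 2) ^ (E₀ + 2) ≤ t := (pow_le_pow_right₀ hH1 (by omega)).trans htR
  have hHt' : (H : ℝ) + c < t := by
    have h1 : ((H : ℝ) + 2) ^ (c + 1) ≤ t := (pow_le_pow_right₀ hH1 (by omega)).trans htR
    have h2 : c < 2 ^ c := Nat.lt_two_pow_self
    have h3 : 2 ^ c ≤ (H + 2) ^ c := Nat.pow_le_pow_left (by omega) _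
    have h4 : (c + 1) * (H + 2) ≤ (H + 2) ^ (c + 1) := by
      rw [pow_succ]
      exact Nat.mul_le_mul_right _ (by omega)
    have h5 : H + c < (c + 1) * (H + 2) := by nlinarith
    have h6 : ((H + c : ℕ) : ℝ) < (((H + 2) ^ (c + 1) : ℕ) : ℝ) := by exact_mod_cast h5.trans_le h4
    push_cast at h6
    linarith
  have ht0 : (0 : ℝ) < t := by
    have : (0 : ℝ) ≤ (c : ℝ) := by positivity
    linarith
  have hξ0 : (ξ : ℂ) ≠ 0 := norm_pos_iff.1 ht0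
  have hξ : ξ ≠ 0 := by
    rintro rfl
    exact hξ0 rfl
  have hx : (((1 / ξ : K)) : ℂ) = 1 / (ξ : ℂ) := by
    push_cast
    rfl
  have hxn : ‖(((1 / ξ : K)) : ℂ)‖ = 1 / t := by
    rw [hx, norm_div, norm_one]
  have hsys := (hE₁ H g hgH).mono le_rfl (pow_le_pow_right₀ hH1 (le_max_left E₁ 1))
  have hC : (2 * ((H : ℝ) + 2) ^ (max E₁ 1)) ^ E₂ ≤ t := by
    have h1 : (2 * ((H : ℝ) + 2) ^ (max E₁ 1)) ^ E₂ ≤ (2 * ((H : ℝ) + 2) ^ (max E₁ 1)) ^ (max E₂ 1) := by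
      refine pow_le_pow_right₀ ?_ (le_max_left _ _)
      have : (1 : ℝ) ≤ ((H : ℝ) + 2) ^ (max E₁ 1) := one_le_pow₀ hH1
      linarith
    exact h1.trans ((pow_base H _ _).trans hb1)
  have hne : Polynomial.aeval (((1 / ξ : K)) : ℂ) (∏ l, Tg (g l)) ≠ 0 := by
    rw [hx, map_prod, Finset.prod_ne_zero_iff]
    intro l _
    refine ne _ _ ?_
    have : ((g l : ℕ) : ℝ) ≤ H := by exact_mod_cast hgH l
    linarith
  -- multiplicativity
  have hcv : ∀ l b, Cvc (1 / (ξ : ℂ)) (F (g l) b) := by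
    intro l b
    have h1 := (sys (g l)).size b
    set B : ℝ := ((g l : ℝ) + 2) ^ E₀ with hB
    have hB0 : 0 ≤ B := by positivity
    refine cvc_of_cv (Cv.of_bound (A := B) (B := B) ht0 hB0 ?_ fun m => ?_)
    · have h2 : B ≤ ((H : ℝ) + 2) ^ E₀ := by
        refine pow_le_pow_left₀ (by positivity) ?_ _
        have : ((g l : ℕ) : ℝ) ≤ H := by exact_mod_cast hgH l
        linarith
      have h3 : ((H : ℝ) + 2) ^ E₀ < ((H : ℝ) + 2) ^ (E₀ + 2) := pow_lt_pow_right₀ (by linarith) (by omega)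
      linarith
    · exact (h1 m).trans (le_of_eq (pow_succ' _ _))
  have hev : ∀ b : Fin N → σ, evc (1 / (ξ : ℂ)) (∏ l, F (g l) (b l)) = ∏ l, evc (1 / (ξ : ℂ)) (F (g l) (b l)) := by
    intro b
    exact Cvc.ev_prod Finset.univ (fun l => F (g l) (b l)) fun l _ => hcv l _
  -- the indices
  let e : Fin (Fintype.card (Fin N → σ)) ≃ (Fin N → σ) := (Fintype.equivFin _).symm
  obtain ⟨c', hc'0, hc'⟩ := hE₂ (((H : ℝ) + 2) ^ (max E₁ 1)) (∏ l, Tg (g l)) (fun j => ∏ l, F (g l) (e j l))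
    (e.symm fun _ => b₀) K (1 / ξ) X
    hK hd (one_div_ne_zero hξ) (pt_inv hξ hPt) (hsys.reindex e) (by
      simp only [Equiv.apply_symm_apply]
      exact Finset.prod_eq_one fun l _ => one _) (hli.comp e e.injective) (by
      rw [hxn, one_div, inv_mul_le_iff₀ ht0, mul_one]
      exact hC) (by
      rw [hxn, div_pow, one_pow, mul_one_div, div_le_one (by positivity)]
      exact hXA) hne
  refine ⟨c', hc'0, fun n a A₁ δ₁ ha hA₁ hδ₁ hA hrel hcard => ?_⟩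
  refine hc' n (fun r j => algebraMap ℚ K (a r (e j))) A₁ δ₁ ?_ ?_ hA₁ hδ₁ ?_ ?_ hcard
  · refine li_ext (a := fun r j => (a r (e j) : ℚ)) ?_
    have h1 : LinearIndependent ℚ ((LinearEquiv.funCongrLeft ℚ ℚ e).toLinearMap ∘ (fun i b => (a i b : ℚ))) :=
      ha.map' _ (LinearEquiv.ker _)
    exact h1
  · intro r j
    have h1 : algebraMap ℚ K (a r (e j)) = algebraMap ℤ K (a r (e j)) := by simp
    rw [h1]
    exact isIntegral_algebraMap
  · intro r j σ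
    have h1 : σ (algebraMap ℚ K (a r (e j))) = ((a r (e j) : ℤ) : ℂ) := by simp
    rw [h1, Complex.norm_intCast]
    exact hA r (e j)
  · intro r
    refine le_trans (le_of_eq ?_) (hrel r)
    congr 1
    rw [← Equiv.sum_comp e]
    refine Finset.sum_congr rfl fun j _ => ?_
    rw [hx, hev]
    congr 1

theorem famCN {r : ℕ} {h : Fin r → ℚ⟦X⟧} {T : Polynomial ℤ} {A : Fin r → Fin r → Polynomial ℤ} (hT : T ≠ 0)
    (hode : ∀ i, ps T * d⁄dX ℚ (h i) = ∑ j, ps (A i j) * h j)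
    (hsize : ∃ C : ℝ, ∀ i m, |((coeff m (h i) : ℚ) : ℝ)| ≤ C ^ (m + 1))
    (hgs : ∃ (q : ℕ) (C : ℝ), GSys q C T h)
    (hqu : QU0 T A) :
    ∃ R : ℕ, ∀ (δ : ℕ) (B₀ : Finset (Fin δ → Option (Fin r))), (fun _ => none) ∈ B₀ →
      (∀ g : (Fin δ → Option (Fin r)) → Polynomial ℚ, ∑ i ∈ B₀, (g i : ℚ⟦X⟧) * yw h i = 0 → ∀ i ∈ B₀, g i = 0) →
      ∃ B : Finset (Fin δ → Option (Fin r)), B₀ ⊆ B ∧
        (∃ C : ℝ, 1 ≤ C ∧ ∀ (b : Fin δ → Option (Fin r)) m, |((coeff m (yw h b : ℚ⟦X⟧) : ℚ) : ℝ)| ≤ C ^ (m + 1)) ∧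
        ∀ N d A : ℕ, ∃ E Bx : ℕ, ∀ (H : ℕ) (K : IntermediateField ℚ ℂ) (ξ : K) (X : ℝ), FiniteDimensional ℚ K →
        Module.finrank ℚ K ≤ d → Pt K ξ X → ((H : ℝ) + 2) ^ E ≤ ‖(ξ : ℂ)‖ → X ≤ ‖(ξ : ℂ)‖ ^ A →
        ∀ g : Fin N → ℕ, SepR R g → (∀ l, g l ≤ H) → ∃ c' : ℝ, 0 < c' ∧ ∀ (n : ℕ)
        (a : Fin n → (Fin N → B × Fin (δ + 1)) → ℤ) (A₁ δ₁ : ℝ),
        LinearIndependent ℚ (fun i b => (a i b : ℚ)) → 1 ≤ A₁ → 0 ≤ δ₁ → (∀ i b, |((a i b : ℤ) : ℝ)| ≤ A₁) →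
        (∀ i, ‖∑ b, ((a i b : ℤ) : ℂ) *
          ∏ l, evc (1 / (ξ : ℂ)) (Fg (δ + 1) (fun β : B => yw h β.1) (g l) (b l))‖ ≤ δ₁) →
        2 * A * d * (Fintype.card (Fin N → B × Fin (δ + 1)) - n) ≤ Fintype.card (Fin N → B × Fin (δ + 1)) →
        c' ≤ δ₁ * A₁ ^ Bx := by
  classical
  obtain ⟨q, C, hG⟩ := hgs
  obtain ⟨Ch, hCh⟩ := hsize
  obtain ⟨e, he, M₀, K, Φ, hΦc, hΦe, hΦd⟩ := hqu
  -- the radii
  set τ : ℝ := |K| + |Ch| + 1 with hτd
  have hτ1 : 1 ≤ τ := by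
    have := abs_nonneg K
    have := abs_nonneg Ch
    linarith
  have hτ0 : 0 < τ := by linarith
  have hτe : τ ≤ τ ^ e := le_self_pow₀ hτ1 he
  set τ' : ℝ := τ + 1 with hτ'd
  have hρρ : τ ^ e < τ' ^ e := pow_lt_pow_left₀ (by linarith) hτ0.le he
  obtain ⟨R, hR⟩ := exists_nat_gt (τ ^ e + τ' ^ e)
  refine ⟨R, fun δ B₀ hb₀ h0 => ?_⟩
  obtain ⟨C', hG'⟩ := gsys_tens (gsys_opt hG) δ
  have hyw : (fun b : Fin δ → Option (Fin r) => ∏ j, (fun o : Option (Fin r) => o.elim 1 h) (b j)) = fun b => yw h b := rfl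
  rw [hyw] at hG'
  have hone : yw h (fun _ : Fin δ => none) = 1 := by
    unfold yw
    exact Finset.prod_eq_one fun j _ => rfl
  obtain ⟨B, hBB, hLI, a, M, ha, hM⟩ := max_li' (fun b : Fin δ → Option (Fin r) => yw h b) B₀ h0
  refine ⟨B, hBB, ⟨C', hG'.one_le, hG'.size⟩, fun N d₁ A₁ => ?_⟩
  obtain ⟨q', C'', hG''⟩ := gsys_sub hG' (fun β : B => yw h β.1) (fun β => β.1) (fun β => rfl) a M hM
  have hmem1 : ∀ i, cx (h i) ∈ Cw (τ ^ e) := fun i =>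
    Cw_mono (by
      have := abs_nonneg K
      linarith) (cx_mem (abs_nonneg Ch) fun m => (hCh i m).trans (by
        rw [← abs_pow]
        exact le_abs_self _))
  have hmem : ∀ b : Fin δ → Option (Fin r), cx (yw h b : ℚ⟦X⟧) ∈ Cw (τ ^ e) := by
    intro b
    unfold yw
    rw [map_prod]
    refine Subring.prod_mem _ fun j _ => ?_
    rcases b j with _ | i
    · show cx 1 ∈ _
      rw [map_one]
      exact Subring.one_mem _
    · exact hmem1 i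
  set Tc : Polynomial ℂ := T.map (Int.castRingHom ℂ) with hTc
  set Ac : Fin r → Fin r → Polynomial ℂ := fun i j => (A i j).map (Int.castRingHom ℂ) with hAc
  have hTc0 : Tc ≠ 0 := (Polynomial.map_ne_zero_iff (Int.castRingHom ℂ).injective_int).2 hT
  have hQU : QU he τ Tc (AT (δ := δ) (A1 Ac)) := by
    refine qu_tens he δ (qu_one he ⟨M₀, Φ, fun i j k => mem_Cw_of_bound ?_ (hΦc i j k), hΦe, hΦd⟩)
    have := abs_nonneg Ch
    linarith
  -- the differential equation of the products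
  have hodeC : ∀ i, (Tc : PowerSeries ℂ) * PowerSeries.derivative ℂ (cx (h i)) = ∑ j, (Ac i j : PowerSeries ℂ) * cx (h j) := by
    intro i
    have h1 := congrArg cx (hode i)
    rw [map_mul, map_sum, cx_der, cx_ps] at h1
    rw [h1]
    refine Finset.sum_congr rfl fun j _ => ?_
    rw [map_mul, cx_ps]
  have hodeT : ∀ b : Fin δ → Option (Fin r), (Tc : PowerSeries ℂ) * PowerSeries.derivative ℂ (cx (yw h b)) =
      ∑ b', ((AT (δ := δ) (A1 Ac) b b' : Polynomial ℂ) : PowerSeries ℂ) * cx (yw h b') := by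
    intro b
    have h1 := tens_der (δ := δ) (fun f : PowerSeries ℂ => PowerSeries.derivative ℂ f) (Derivation.map_one_eq_zero _)
      (fun f g => by
        rw [Derivation.leibniz]
        rfl) (Tc : PowerSeries ℂ) 0
      (fun i l : Option (Fin r) => ((A1 Ac i l : Polynomial ℂ) : PowerSeries ℂ))
      (fun _ o => cx (o.elim 1 h)) (fun j o => by
        rw [zero_mul, zero_add, Fintype.sum_option]
        rcases o with _ | i
        · show _ * PowerSeries.derivative ℂ (cx 1) = ((0 : Polynomial ℂ) : PowerSeries ℂ) * _ +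
            ∑ j, ((0 : Polynomial ℂ) : PowerSeries ℂ) * _
          rw [map_one, Derivation.map_one_eq_zero]
          simp
        · show _ = ((0 : Polynomial ℂ) : PowerSeries ℂ) * _ + ∑ j, (Ac i j : PowerSeries ℂ) * cx (h j)
          rw [← hodeC i]
          simp) b
    have h2 : ∀ b : Fin δ → Option (Fin r), cx (yw h b) = ∏ j, cx ((b j).elim 1 h) := fun b => map_prod _ _ _
    rw [h2 b]
    refine h1.trans ?_
    rw [mul_zero, zero_mul, zero_add]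
    refine Finset.sum_congr rfl fun b' _ => ?_
    rw [h2 b']
    congr 1
    let f : Polynomial ℂ →+ PowerSeries ℂ := (Polynomial.coeToPowerSeries.ringHom (R := ℂ)).toAddMonoidHom
    exact (AT_map f (A1 Ac) b b').symm
  have hdisc : Disc (τ ^ e) (τ' ^ e) fun b : (B : Set (Fin δ → Option (Fin r))) => cx (yw h b.1) :=
    disc_of_qu he hτ0 (by linarith) (fun b => cx (yw h b)) hmem Tc hTc0 _ hodeT hQU
      (B : Set (Fin δ → Option (Fin r))) (by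
      intro G hG
      refine li_cx (κ := (B : Set (Fin δ → Option (Fin r)))) ?_ G hG
      exact hLI)
  obtain ⟨q₀, E₀, hsys⟩ := gsys_Fg hG'' δ
  obtain ⟨c, hc⟩ := Tg_neC (mul_ne_zero ha hT) hG''.degT
  obtain ⟨E, hE⟩ := gsys_shift hG''
  obtain ⟨E₁, Bx, hE₁⟩ := liN (F := Fg (δ + 1) (fun β : B => yw h β.1)) (Tg := Pool.Agent.Y120.GH.Tg q' (a * T)) (c := c)
    (b₀ := ((⟨fun _ => none, hBB hb₀⟩ : B), (0 : Fin (δ + 1)))) (by
      intro g
      show sf g (yw h fun _ : Fin δ => none) * yQ g ((0 : Fin (δ + 1)) : ℕ) = 1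
      rw [hone]
      have h1 : sf g 1 = 1 := by
        have := sf_nat g 1
        simpa using this
      rw [h1, one_mul]
      exact yQ_nil g) hsys hc N d₁ A₁
  refine ⟨E₁, Bx, fun H K' ξ X hK' hd hPt hHt hX g hg hgH => hE₁ H K' ξ X hK' hd hPt hHt hX g hgH ?_⟩
  refine li_shift (ρ := τ ^ e) (ρ' := τ' ^ e) (C := C'') (y := fun β : B => yw h β.1) (by positivity) hρρ
    (by have := hG''.one_le; linarith) (fun β => hmem _) hdisc hG''.size (fun g => ⟨((g : ℝ) + 2) ^ E, by positivity,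
      (hE g).size⟩) hR (δ + 1) N g (fun l => by exact_mod_cast hg.1 l) fun l l' hl => ?_
  rcases hg.2 l l' hl with h1 | h1
  · have h2 : (g l : ℝ) + R ≤ g l' := by exact_mod_cast h1
    rw [abs_sub_comm]
    exact le_trans (by linarith) (le_abs_self _)
  · have h2 : (g l' : ℝ) + R ≤ g l := by exact_mod_cast h1
    exact le_trans (by linarith) (le_abs_self _)


theorem t_famN {r : ℕ} {T : Polynomial ℤ} {A : Fin r → Fin r → Polynomial ℤ} {h : Fin r → ℚ⟦X⟧} (hG : GFs T A h) :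
    FAMN h := by
  classical
  obtain ⟨R, hR⟩ := famCN hG.hT hG.hode hG.hsize hG.hgs hG.hqu
  refine ⟨max R 1, le_max_right _ _, fun G hGR I hI δ => ?_⟩
  have hG1 : 1 ≤ G := (le_max_right _ _).trans hGR
  have hGR' : R ≤ G := (le_max_left _ _).trans hGR
  obtain ⟨B, hBB, ⟨C, hC1, hC⟩, hB⟩ := hR δ ((Mon δ I).image (wd r δ)) (by
    rw [← wd_zero δ]
    refine Finset.mem_image_of_mem _ ?_
    rw [mem_Mon]
    simp) (li_B0 hI δ)
  refine ⟨B, ?_, fun N d A₁ => ?_⟩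
  · rw [← Finset.card_image_of_injOn (wd_inj (r := r) (δ := δ) (I := I))]
    exact Finset.card_le_card hBB
  obtain ⟨C₀, hC₀⟩ := hG.hsize
  obtain ⟨E, Bx, hE⟩ := hB N d A₁
  obtain ⟨c, hc⟩ := pow_unbounded_of_one_lt (C + |C₀|) (show (1 : ℝ) < 2 by norm_num)
  refine ⟨(G + 1) * E + (G + 1 + c), Bx, ?_⟩
  intro H K ξ X hK hd hPt ht hX g hg hgH
  have hGH : G * H + 2 ≤ (H + 2) ^ (G + 1) := by
    have h2 : G + 1 ≤ 2 ^ G := Nat.lt_two_pow_self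
    have h3 : 2 ^ G ≤ (H + 2) ^ G := Nat.pow_le_pow_left (by omega) _
    rw [pow_succ]
    nlinarith
  have hGHR : ((G * H : ℕ) : ℝ) + 2 ≤ ((H : ℝ) + 2) ^ (G + 1) := by exact_mod_cast hGH
  have hH0 : (0 : ℝ) ≤ (H : ℝ) := by positivity
  have hH1 : (1 : ℝ) ≤ (H : ℝ) + 2 := by linarith
  have ht1 : (((G * H : ℕ) : ℝ) + 2) ^ E ≤ ‖(ξ : ℂ)‖ := by
    refine (pow_le_pow_left₀ (by positivity) hGHR _).trans ?_
    rw [← pow_mul]
    exact (pow_le_pow_right₀ hH1 (by omega)).trans ht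
  have ht2 : (((G * H : ℕ) : ℝ) + 2) * 2 ^ c ≤ ‖(ξ : ℂ)‖ := by
    refine le_trans ?_ ((pow_le_pow_right₀ hH1 (show G + 1 + c ≤ (G + 1) * E + (G + 1 + c) by omega)).trans ht)
    rw [pow_add _ (G + 1) c]
    exact mul_le_mul hGHR (pow_le_pow_left₀ (by norm_num) (by linarith) _) (by positivity) (by positivity)
  set g' : Fin N → ℕ := fun l => G * g l with hg'
  have hg'H : ∀ l, g' l ≤ G * H := fun l => Nat.mul_le_mul_left _ (hgH l).2
  have hbig : ∀ l, ((g' l : ℕ) : ℝ) + (C + |C₀|) < ‖(ξ : ℂ)‖ := by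
    intro l
    have h1 : ((g' l : ℕ) : ℝ) ≤ ((G * H : ℕ) : ℝ) := by exact_mod_cast hg'H l
    have h2 : (1 : ℝ) ≤ 2 ^ c := one_le_pow₀ (by norm_num)
    have h3 : (0 : ℝ) ≤ ((G * H : ℕ) : ℝ) := by positivity
    nlinarith
  have hsep : SepR R g' := by
    refine ⟨fun l => hGR'.trans (Nat.le_mul_of_pos_right _ (hgH l).1), fun l l' hll => ?_⟩
    have h1 : g l ≠ g l' := fun h => hll (hg h)
    rcases Nat.lt_or_gt_of_ne h1 with h2 | h2
    · left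
      have : G * (g l + 1) ≤ G * g l' := Nat.mul_le_mul_left _ h2
      rw [mul_add, mul_one] at this
      show G * g l + R ≤ G * g l'
      omega
    · right
      have : G * (g l' + 1) ≤ G * g l := Nat.mul_le_mul_left _ h2
      rw [mul_add, mul_one] at this
      show G * g l' + R ≤ G * g l
      omega
  obtain ⟨c', hc'0, hc'⟩ := hE (G * H) K ξ X hK hd hPt ht1 hX g' hsep hg'H
  set Fm : ℕ := (δ.factorial) ^ N with hFm
  have hFm1 : 1 ≤ Fm := Nat.one_le_pow _ _ (Nat.factorial_pos δ)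
  have hFmR : (1 : ℝ) ≤ (Fm : ℝ) := by exact_mod_cast hFm1
  refine ⟨c' / (Fm : ℝ) ^ Bx, by positivity, fun n a A₂ δ₁ ha hA₂ hδ₁ hA hrel hcard => ?_⟩
  rw [div_le_iff₀ (by positivity), mul_assoc, ← mul_pow]
  refine hc' n (fun i b => a i b * ((∏ l, ((b l).2 : ℕ).factorial : ℕ) : ℤ)) (A₂ * Fm) δ₁ ?_ ?_ hδ₁ ?_ (fun i => ?_) hcard
  · have h0 := li_scale (F := fun b => ((∏ l, ((b l).2 : ℕ).factorial : ℕ) : ℚ)) ha fun b => by
      have h1 : (∏ l, ((b l).2 : ℕ).factorial : ℕ) ≠ 0 := Finset.prod_ne_zero_iff.2 fun l _ => Nat.factorial_ne_zero _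
      exact_mod_cast h1
    refine (iff_of_eq ?_).mp h0
    congr 1
    funext i b
    push_cast
    rfl
  · exact one_le_mul_of_one_le_of_one_le hA₂ hFmR
  · intro i b
    rw [Int.cast_mul, abs_mul]
    refine mul_le_mul (hA i b) ?_ (abs_nonneg _) (by linarith)
    rw [Int.cast_natCast, Nat.abs_cast]
    have h1 : (∏ l, ((b l).2 : ℕ).factorial : ℕ) ≤ Fm := by
      rw [hFm]
      calc (∏ l, ((b l).2 : ℕ).factorial : ℕ) ≤ ∏ _l : Fin N, δ.factorial :=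
            Finset.prod_le_prod' fun l _ => Nat.factorial_le (Nat.lt_succ_iff.1 (b l).2.2)
        _ = _ := by rw [Finset.prod_const, Finset.card_univ, Fintype.card_fin]
    exact_mod_cast h1
  · refine le_trans (le_of_eq ?_) (hrel i)
    congr 1
    refine Finset.sum_congr rfl fun b _ => ?_
    have h1 : ∀ l, evc (1 / (ξ : ℂ)) (Fg (δ + 1) (fun β : B => yw h β.1) (g' l) (b l)) =
        yw (fun j => vc G h ξ (g l) (some j)) (b l).1.1 *
          (1 / (((b l).2 : ℕ).factorial : ℂ) * vc G h ξ (g l) none ^ ((b l).2 : ℕ)) := by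
      intro l
      have hb := hbig l
      rw [evc_Fg hC1 (fun β m => hC β.1 m) (by
        have := abs_nonneg C₀
        linarith) (b l)]
      have h2 : |C₀| < ‖(ξ : ℂ) - ((g' l : ℕ) : ℂ)‖ := by
        have h3 := norm_sub_norm_le (ξ : ℂ) ((g' l : ℕ) : ℂ)
        rw [Complex.norm_natCast] at h3
        linarith
      rw [evc_yw (C := |C₀|) (abs_nonneg _) (fun j m => (hC₀ j m).trans (by
        rw [← abs_pow]
        exact le_abs_self _)) h2]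
      rfl
    simp only [h1]
    rw [Int.cast_mul, mul_assoc]
    congr 1
    have h4 : (((∏ l, ((b l).2 : ℕ).factorial : ℕ) : ℤ) : ℂ) = ∏ l, (((b l).2 : ℕ).factorial : ℂ) := by
      push_cast
      rfl
    rw [h4, ← Finset.prod_mul_distrib]
    refine Finset.prod_congr rfl fun l _ => ?_
    have h5 : ((((b l).2 : ℕ).factorial : ℕ) : ℂ) ≠ 0 := by
      exact_mod_cast Nat.factorial_ne_zero _
    field_simp


end Pool.Agent.Q246.AF
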