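import Pool.Agent.Y118.UL.Ger

/-!
# The field of sequences of polynomial growth modulo sequences of rapid decay (asymptotic numbers), along an ultrafilter
-/

set_option autoImplicit false

open Filter

namespace Pool.Agent.Q246.AF

open Pool.Agent.Y118.UL

/-- a scale -/
def Sc (w : ℕ → ℝ) : Prop := ∀ n : ℕ, (n : ℝ) + 2 ≤ w n

/-- polynomial growth -/
def Bd (w : ℕ → ℝ) (f : ℕ → ℂ) : Prop := ∃ k : ℕ, ∀ᶠ n in (hyperfilter ℕ : Filter ℕ), ‖f n‖ ≤ w n ^ k

/-- rapid decay -/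
def Ti (w : ℕ → ℝ) (f : ℕ → ℂ) : Prop := ∀ k : ℕ, ∀ᶠ n in (hyperfilter ℕ : Filter ℕ), ‖f n‖ ≤ (w n ^ k)⁻¹

variable {w : ℕ → ℝ}

lemma Sc.two (hw : Sc w) (n : ℕ) : 2 ≤ w n := by
  have := hw n
  have h : (0 : ℝ) ≤ n := by positivity
  linarith

lemma Sc.one (hw : Sc w) (n : ℕ) : 1 ≤ w n := by linarith [hw.two n]

lemma Sc.pos (hw : Sc w) (n : ℕ) : 0 < w n := by linarith [hw.two n]

lemma ev_le_pow (hw : Sc w) {f : ℕ → ℂ} {k k' : ℕ} (hk : k ≤ k')
    (h : ∀ᶠ n in (hyperfilter ℕ : Filter ℕ), ‖f n‖ ≤ w n ^ k) : ∀ᶠ n in (hyperfilter ℕ : Filter ℕ), ‖f n‖ ≤ w n ^ k' := by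
  filter_upwards [h] with n hn
  exact hn.trans (pow_le_pow_right₀ (hw.one n) hk)

lemma Bd.const (hw : Sc w) (c : ℂ) : Bd w (fun _ => c) := by
  refine ⟨1, ?_⟩
  filter_upwards [ev_ge ⌈‖c‖⌉₊] with n hn
  have h1 : ‖c‖ ≤ (n : ℝ) := (Nat.le_ceil _).trans (by exact_mod_cast hn)
  have h2 := hw n
  rw [pow_one]
  linarith

lemma Bd.add (hw : Sc w) {f g : ℕ → ℂ} (hf : Bd w f) (hg : Bd w g) : Bd w (f + g) := by
  obtain ⟨k, hk⟩ := hf
  obtain ⟨k', hk'⟩ := hg
  refine ⟨max k k' + 1, ?_⟩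
  filter_upwards [ev_le_pow hw (le_max_left k k') hk, ev_le_pow hw (le_max_right k k') hk'] with n h1 h2
  have h3 := norm_add_le (f n) (g n)
  have h4 := hw.two n
  have h5 : 0 ≤ w n ^ max k k' := pow_nonneg (hw.pos n).le _
  rw [Pi.add_apply, pow_succ]
  nlinarith

lemma Bd.mul {f g : ℕ → ℂ} (hf : Bd w f) (hg : Bd w g) : Bd w (f * g) := by
  obtain ⟨k, hk⟩ := hf
  obtain ⟨k', hk'⟩ := hg
  refine ⟨k + k', ?_⟩
  filter_upwards [hk, hk'] with n h1 h2
  rw [Pi.mul_apply, norm_mul, pow_add]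
  exact mul_le_mul h1 h2 (norm_nonneg _) ((norm_nonneg _).trans h1)

lemma Bd.neg {f : ℕ → ℂ} (hf : Bd w f) : Bd w (-f) := by
  obtain ⟨k, hk⟩ := hf
  refine ⟨k, ?_⟩
  filter_upwards [hk] with n h1
  rwa [Pi.neg_apply, norm_neg]

lemma Bd.of_eq {f g : ℕ → ℂ} (hf : Bd w f) (h : ∀ᶠ n in (hyperfilter ℕ : Filter ℕ), f n = g n) : Bd w g := by
  obtain ⟨k, hk⟩ := hf
  refine ⟨k, ?_⟩
  filter_upwards [hk, h] with n h1 h2
  rwa [← h2]

/-- the ring of sequences of polynomial growth -/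
def SB (w : ℕ → ℝ) (hw : Sc w) : Subring (ℕ → ℂ) where
  carrier := {f | Bd w f}
  mul_mem' := fun hf hg => Bd.mul hf hg
  one_mem' := Bd.const hw 1
  add_mem' := fun hf hg => Bd.add hw hf hg
  zero_mem' := Bd.const hw 0
  neg_mem' := fun hf => Bd.neg hf

/-- the valuation ring of germs of polynomial growth -/
noncomputable def OB (w : ℕ → ℝ) (hw : Sc w) : ValuationSubring (U ℂ) where
  carrier := {x | ∃ f, Bd w f ∧ mk ℂ f = x}
  mul_mem' := by
    rintro _ _ ⟨f, hf, rfl⟩ ⟨g, hg, rfl⟩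
    exact ⟨f * g, hf.mul hg, map_mul _ _ _⟩
  one_mem' := ⟨1, Bd.const hw 1, map_one _⟩
  add_mem' := by
    rintro _ _ ⟨f, hf, rfl⟩ ⟨g, hg, rfl⟩
    exact ⟨f + g, hf.add hw hg, map_add _ _ _⟩
  zero_mem' := ⟨0, Bd.const hw 0, map_zero _⟩
  neg_mem' := by
    rintro _ ⟨f, hf, rfl⟩
    exact ⟨-f, hf.neg, map_neg _ _⟩
  mem_or_inv_mem' := by
    intro x
    obtain ⟨f, rfl⟩ := mk_surj x
    by_cases h : ∀ᶠ n in (hyperfilter ℕ : Filter ℕ), ‖f n‖ ≤ 1
    · left
      exact ⟨f, ⟨0, by simpa using h⟩, rfl⟩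
    · right
      rw [← Ultrafilter.eventually_not] at h
      refine ⟨fun n => (f n)⁻¹, ⟨0, ?_⟩, ?_⟩
      · filter_upwards [h] with n hn
        push Not at hn
        rw [pow_zero, norm_inv]
        exact inv_le_one_of_one_le₀ hn.le
      · refine eq_inv_of_mul_eq_one_left ?_
        rw [← map_mul, ← map_one (mk ℂ), mk_eq]
        filter_upwards [h] with n hn
        push Not at hn
        have h1 : f n ≠ 0 := by
          intro h0
          rw [h0, norm_zero] at hn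
          linarith
        show (f n)⁻¹ * f n = 1
        exact inv_mul_cancel₀ h1

/-- the field of asymptotic numbers -/
abbrev Om (w : ℕ → ℝ) (hw : Sc w) : Type := IsLocalRing.ResidueField (OB w hw)

lemma mem_OB {hw : Sc w} (f : SB w hw) : (mk ℂ).comp (SB w hw).subtype f ∈ OB w hw := by
  show ∃ g, Bd w g ∧ mk ℂ g = _
  exact ⟨f.1, f.2, rfl⟩

/-- the germ of a sequence of polynomial growth -/
noncomputable def gm (w : ℕ → ℝ) (hw : Sc w) : SB w hw →+* OB w hw :=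
  RingHom.codRestrict ((mk ℂ).comp (SB w hw).subtype) (OB w hw) mem_OB

lemma gm_val {hw : Sc w} (f : SB w hw) : ((gm w hw f : OB w hw) : U ℂ) = mk ℂ f.1 := rfl

/-- the class of a sequence -/
noncomputable def cl (w : ℕ → ℝ) (hw : Sc w) : SB w hw →+* Om w hw :=
  (IsLocalRing.residue (OB w hw)).comp (gm w hw)

lemma cl_eq_zero {hw : Sc w} {f : SB w hw} : cl w hw f = 0 ↔ Ti w f.1 := by
  constructor
  · intro h k
    by_contra hcon
    rw [← Ultrafilter.eventually_not] at hcon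
    have hg : Bd w (fun n => (f.1 n)⁻¹) := by
      refine ⟨k, ?_⟩
      filter_upwards [hcon] with n hn
      push Not at hn
      have h1 : 0 < w n ^ k := pow_pos (hw.pos n) _
      have h2 : 0 < ‖f.1 n‖ := (by positivity : (0 : ℝ) < (w n ^ k)⁻¹).trans hn
      rw [norm_inv]
      exact (inv_lt_of_inv_lt₀ h1 hn).le
    have h2 : cl w hw f * cl w hw ⟨_, hg⟩ = 1 := by
      rw [← map_mul]
      have h3 : gm w hw (f * ⟨_, hg⟩) = 1 := by
        apply Subtype.ext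
        show mk ℂ (f.1 * fun n => (f.1 n)⁻¹) = 1
        rw [← map_one (mk ℂ), mk_eq]
        filter_upwards [hcon] with n hn
        push Not at hn
        have h1 : 0 < w n ^ k := pow_pos (hw.pos n) _
        have h2 : 0 < ‖f.1 n‖ := (by positivity : (0 : ℝ) < (w n ^ k)⁻¹).trans hn
        show f.1 n * (f.1 n)⁻¹ = 1
        exact mul_inv_cancel₀ (norm_pos_iff.1 h2)
      show IsLocalRing.residue (OB w hw) (gm w hw (f * ⟨_, hg⟩)) = 1
      rw [h3, map_one]
    rw [h, zero_mul] at h2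
    exact zero_ne_one h2
  · intro h
    show IsLocalRing.residue (OB w hw) (gm w hw f) = 0
    rw [IsLocalRing.residue_eq_zero_iff, IsLocalRing.mem_maximalIdeal, mem_nonunits_iff]
    intro hu
    obtain ⟨y, hy⟩ := hu.exists_right_inv
    obtain ⟨y, g, ⟨k, hk⟩, rfl⟩ := y
    have h1 := congrArg (fun z : OB w hw => (z : U ℂ)) hy
    have h2 : mk ℂ (f.1 * g) = 1 := by
      rw [map_mul]
      exact h1
    rw [← map_one (mk ℂ), mk_eq] at h2
    obtain ⟨n, h3, h4, h5⟩ := (h2.and (hk.and (h (k + 1)))).exists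
    have h6 : f.1 n * g n = 1 := h3
    have h7 : (1 : ℝ) = ‖f.1 n‖ * ‖g n‖ := by rw [← norm_mul, h6, norm_one]
    have h8 : 0 < w n ^ k := pow_pos (hw.pos n) _
    have h9 : ‖f.1 n‖ * ‖g n‖ ≤ (w n ^ (k + 1))⁻¹ * w n ^ k :=
      mul_le_mul h5 h4 (norm_nonneg _) (by have := hw.pos n; positivity)
    have h10 : (w n ^ (k + 1))⁻¹ * w n ^ k = (w n)⁻¹ := by
      have := hw.pos n
      rw [pow_succ]
      field_simp
    rw [h10] at h9
    have h11 : (w n)⁻¹ < 1 := inv_lt_one_of_one_lt₀ (by linarith [hw.two n])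
    linarith

lemma Ti.of_eq {f g : ℕ → ℂ} (hf : Ti w f) (h : ∀ᶠ n in (hyperfilter ℕ : Filter ℕ), f n = g n) : Ti w g := by
  intro k
  filter_upwards [hf k, h] with n h1 h2
  rwa [← h2]

lemma Ti.zero (hw : Sc w) {f : ℕ → ℂ} (h : ∀ᶠ n in (hyperfilter ℕ : Filter ℕ), f n = 0) : Ti w f := by
  intro k
  filter_upwards [h] with n h1
  rw [h1, norm_zero]
  exact inv_nonneg.2 (pow_nonneg (hw.pos n).le _)

instance (hw : Sc w) : CharZero (Om w hw) := by
  refine charZero_of_inj_zero fun n hn => ?_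
  have h1 : cl w hw (n : SB w hw) = 0 := by rw [map_natCast]; exact hn
  rw [cl_eq_zero] at h1
  obtain ⟨m, hm⟩ := (h1 1).exists
  have h2 : ((n : SB w hw) : ℕ → ℂ) m = (n : ℂ) := by
    rw [Subring.coe_natCast]
    rfl
  rw [h2, Complex.norm_natCast, pow_one] at hm
  have h3 : (w m)⁻¹ < 1 := inv_lt_one_of_one_lt₀ (by linarith [hw.two m])
  have h4 : (n : ℝ) < 1 := by linarith
  have h5 : n < 1 := by exact_mod_cast h4
  omega

/-- the ring of sequences of integers of polynomial growth -/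
def ZB (w : ℕ → ℝ) (hw : Sc w) : Subring (ℕ → ℤ) where
  carrier := {a | Bd w fun n => (a n : ℂ)}
  mul_mem' := fun {a b} ha hb => (Bd.mul ha hb).of_eq (Eventually.of_forall fun n => by simp)
  one_mem' := (Bd.const hw 1).of_eq (Eventually.of_forall fun n => by simp)
  add_mem' := fun {a b} ha hb => (Bd.add hw ha hb).of_eq (Eventually.of_forall fun n => by simp)
  zero_mem' := (Bd.const hw 0).of_eq (Eventually.of_forall fun n => by simp)
  neg_mem' := fun {a} ha => (Bd.neg ha).of_eq (Eventually.of_forall fun n => by simp)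

/-- the inclusion -/
def zs (w : ℕ → ℝ) (hw : Sc w) : ZB w hw →+* SB w hw where
  toFun a := ⟨fun n => (a.1 n : ℂ), a.2⟩
  map_one' := Subtype.ext (funext fun n => by simp)
  map_zero' := Subtype.ext (funext fun n => by simp)
  map_mul' := fun a b => Subtype.ext (funext fun n => by simp)
  map_add' := fun a b => Subtype.ext (funext fun n => by simp)

/-- the class of a sequence of integers -/
noncomputable def zc (w : ℕ → ℝ) (hw : Sc w) : ZB w hw →+* Om w hw := (cl w hw).comp (zs w hw)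

lemma zc_eq_zero {hw : Sc w} {a : ZB w hw} : zc w hw a = 0 ↔ ∀ᶠ n in (hyperfilter ℕ : Filter ℕ), a.1 n = 0 := by
  show cl w hw (zs w hw a) = 0 ↔ _
  rw [cl_eq_zero]
  constructor
  · intro h
    filter_upwards [h 1] with n hn
    have h1 : ‖((a.1 n : ℤ) : ℂ)‖ ≤ (w n ^ 1)⁻¹ := hn
    rw [pow_one, Complex.norm_intCast] at h1
    have h2 : (w n)⁻¹ < 1 := inv_lt_one_of_one_lt₀ (by linarith [hw.two n])
    have h3 : |((a.1 n : ℤ) : ℝ)| < 1 := by linarith
    have h4 : |a.1 n| < 1 := by exact_mod_cast h3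
    exact Int.abs_lt_one_iff.1 h4
  · intro h
    refine Ti.zero hw ?_
    filter_upwards [h] with n hn
    show ((a.1 n : ℤ) : ℂ) = 0
    rw [hn, Int.cast_zero]

/-- the field generated by the sequences of integers -/
noncomputable def FZ (w : ℕ → ℝ) (hw : Sc w) : Subfield (Om w hw) := Subfield.closure ((zc w hw).range : Set (Om w hw))

lemma zc_mem {hw : Sc w} (a : ZB w hw) : zc w hw a ∈ FZ w hw := Subfield.subset_closure ⟨a, rfl⟩

lemma mem_FZ {hw : Sc w} {x : Om w hw} (hx : x ∈ FZ w hw) : ∃ a b : ZB w hw, zc w hw b ≠ 0 ∧ zc w hw b * x = zc w hw a := by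
  rw [FZ, Subfield.mem_closure_iff, Subring.closure_eq] at hx
  obtain ⟨_, ⟨a, rfl⟩, _, ⟨b, rfl⟩, rfl⟩ := hx
  by_cases hb : zc w hw b = 0
  · refine ⟨0, 1, by rw [map_one]; exact one_ne_zero, ?_⟩
    rw [hb, div_zero, mul_zero, map_zero]
  · exact ⟨a, b, hb, mul_div_cancel₀ _ hb⟩

/-- common denominators -/
lemma common {hw : Sc w} {ι : Type} [Fintype ι] (x : ι → Om w hw) (hx : ∀ i, x i ∈ FZ w hw) :
    ∃ (b : ZB w hw) (a : ι → ZB w hw), zc w hw b ≠ 0 ∧ ∀ i, zc w hw b * x i = zc w hw (a i) := by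
  classical
  choose a b hb hab using fun i => mem_FZ (hx i)
  refine ⟨∏ i, b i, fun i => a i * ∏ j ∈ Finset.univ.erase i, b j, ?_, fun i => ?_⟩
  · rw [map_prod]
    exact Finset.prod_ne_zero_iff.2 fun i _ => hb i
  · rw [← Finset.mul_prod_erase Finset.univ b (Finset.mem_univ i), map_mul, map_mul, ← hab i]
    ring

end Pool.Agent.Q246.AF
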