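import Pool.Agent.Q246.AF.Lem
import Pool.Agent.Q246.AF.FamN
import Pool.Agent.Q246.NR2.Win

/-!
# Families of G-functions at algebraic points: measures of algebraic independence

If the free coordinates satisfied near relations of large height, then over the field generated by the sequences of
integers the values of the family would have a small transcendence degree in the field of asymptotic numbers.
-/

set_option autoImplicit false

open PowerSeries Module Filter AlgebraicIndependent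

namespace Pool.Agent.Q246.AF

open Pool.Agent.Y916 Pool.Agent.Y916.Af Pool.Agent.Y916.Al Pool.Agent.Y120.GH Pool.Agent.Y118.UL Pool.Agent.Y475.AF
  Pool.Agent.Q246.NR Pool.Agent.Q246.NR2

variable {r : ℕ}

/-- integer polynomials for the elements of number fields -/
lemma int_poly {d : ℕ} (K : IntermediateField ℚ ℂ) (hf : FiniteDimensional ℚ K) (hd : finrank ℚ K ≤ d) (c : ℂ)
    (hc : c ∈ K) : ∃ p : Polynomial ℤ, p ≠ 0 ∧ p.natDegree ≤ d ∧ Polynomial.aeval c p = 0 := by
  set q := minpoly ℚ (⟨c, hc⟩ : K) with hq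
  have hq0 : q ≠ 0 := minpoly.ne_zero (Algebra.IsIntegral.isIntegral _)
  have hdeg : q.natDegree ≤ d := (minpoly.natDegree_le _).trans hd
  have h2 : Polynomial.aeval c q = 0 := by
    have h3 := congrArg (algebraMap K ℂ) (minpoly.aeval ℚ (⟨c, hc⟩ : K))
    rw [← Polynomial.aeval_algebraMap_apply, map_zero] at h3
    exact h3
  refine ⟨IsLocalization.integerNormalization (nonZeroDivisors ℤ) q, ?_, ?_, ?_⟩
  · exact fun h => hq0 (IsFractionRing.integerNormalization_eq_zero_iff.1 h)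
  · rw [Polynomial.natDegree_le_iff_coeff_eq_zero]
    intro n hn
    by_contra h
    have h3 := IsLocalization.integerNormalization_support (nonZeroDivisors ℤ) q (Polynomial.mem_support_iff.2 h)
    have h4 := Polynomial.le_natDegree_of_mem_supp n h3
    omega
  · exact IsLocalization.integerNormalization_aeval_eq_zero _ q h2

/-- a bound for finitely many sequences of polynomial growth -/
lemma bd_fin {w : ℕ → ℝ} (hw : Sc w) {ι : Type} [Fintype ι] (f : ι → ℕ → ℂ) (hf : ∀ i, Bd w (f i)) :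
    ∃ k : ℕ, ∀ᶠ n in (hyperfilter ℕ : Filter ℕ), ∀ i, ‖f i n‖ ≤ w n ^ k := by
  choose k hk using hf
  refine ⟨∑ i, k i, ?_⟩
  rw [eventually_all]
  intro i
  exact ev_le_pow hw (Finset.single_le_sum (f := k) (fun _ _ => Nat.zero_le _) (Finset.mem_univ i)) (hk i)

theorem nrsN {h : Fin r → ℚ⟦X⟧} (hfam : FAMN h)
    (hsize : ∃ C : ℝ, ∀ i m, |((coeff m (h i) : ℚ) : ℝ)| ≤ C ^ (m + 1)) :
    ∃ G0 : ℕ, 1 ≤ G0 ∧ ∀ G : ℕ, G0 ≤ G → ∀ I : Finset (Fin r), Free h I →
      InpN (fun ξ g (i : Option I) => vc G h ξ g (i.map Subtype.val)) := by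
  classical
  have hhf := Pool.Agent.Y185.AF.t_hf
  have hrk := Pool.Agent.Y356.AF.t_rk
  obtain ⟨G0, hG0, hG⟩ := hfam
  refine ⟨G0, hG0, fun G hGG I hFree N Δ d A' => ?_⟩
  by_contra hcon
  push Not at hcon
  choose H K ξ X hfd hrank hPt hbig hX g hginj hgb hlow using fun n : ℕ => hcon n n
  -- the points
  obtain ⟨xs, hxs⟩ : ∃ xs : Fin N → ℕ → ℂ, xs = fun l n =>
    1 / ((ξ n : ℂ) - ((G * g n l : ℕ) : ℂ)) := ⟨_, rfl⟩
  obtain ⟨zq, hzq⟩ : ∃ zq : Fin N → Option (Fin r) → ℕ → ℂ, zq = fun l o n =>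
    vc G h (ξ n) (g n l) o := ⟨_, rfl⟩
  have hxK : ∀ l n, xs l n ∈ K n := by
    intro l n
    rw [hxs]
    exact (K n).div_mem (K n).one_mem ((K n).sub_mem (ξ n).2 (natCast_mem (K n) _))
  choose p hp0 hpd hpz using fun l n => int_poly (K n) (hfd n) (hrank n) (xs l n) (hxK l n)
  -- the constants of the family
  choose B hBcard hB using fun δ => hG G hGG I hFree.1 δ
  choose E Bx hE using fun δ => hB δ N d A'
  have hc : ∀ n δ, ∃ c : ℝ, 0 < c ∧ (E δ ≤ n → ∀ (m : ℕ) (a : Fin m → (Fin N → B δ × Fin (δ + 1)) → ℤ) (A₁ δ₁ : ℝ),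
      LinearIndependent ℚ (fun i b => (a i b : ℚ)) → 1 ≤ A₁ → 0 ≤ δ₁ → (∀ i b, |((a i b : ℤ) : ℝ)| ≤ A₁) →
      (∀ i, ‖∑ b, ((a i b : ℤ) : ℂ) * ∏ l, (yw (fun j => vc G h (ξ n) (g n l) (some j)) (b l).1.1 *
        vc G h (ξ n) (g n l) none ^ ((b l).2 : ℕ))‖ ≤ δ₁) →
      2 * A' * d * (Fintype.card (Fin N → B δ × Fin (δ + 1)) - m) ≤ Fintype.card (Fin N → B δ × Fin (δ + 1)) →
      c ≤ δ₁ * A₁ ^ Bx δ) := by
    intro n δ
    by_cases hn : E δ ≤ n
    · obtain ⟨c, hc0, hc⟩ := hE δ (H n) (K n) (ξ n) (X n) (hfd n) (hrank n) (hPt n)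
        (le_trans (pow_le_pow_right₀ (by linarith [show (0 : ℝ) ≤ H n by positivity]) hn) (hbig n)) (hX n) (g n)
        (hginj n) (hgb n)
      exact ⟨c, hc0, fun _ => hc⟩
    · exact ⟨1, one_pos, fun h => absurd h hn⟩
  choose c hc0 hc using hc
  -- the scale
  obtain ⟨M, hM⟩ : ∃ M : ℕ → ℝ, M = fun n : ℕ => (n : ℝ) + 2 + ∑ l, ∑ o, ‖zq l o n‖ + ∑ l, ‖xs l n‖ + ∑ l, 1 / ‖xs l n‖ +
    ∑ l, ∑ j ∈ Finset.range (d + 1), |(((p l n).coeff j : ℤ) : ℝ)| + ∑ δ ∈ Finset.range (n + 1), 1 / c n δ := ⟨_, rfl⟩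
  have hlow' : ∀ n, ∃ (w : ℝ) (Q : MvPolynomial (Fin N × Option I) ℤ), M n ≤ w ∧ Q ≠ 0 ∧ Q.totalDegree ≤ Δ ∧ len Q ≤ w ∧
      w ^ n * ‖MvPolynomial.aeval (fun i : Fin N × Option I => vc G h (ξ n) (g n i.1) (i.2.map Subtype.val)) Q‖ < 1 := by
    intro n
    have h1 := hlow n
    unfold Low at h1
    push Not at h1
    obtain ⟨w, hw1, Q, hQ0, hQd, hQl, hQv⟩ := h1 (M n)
    exact ⟨w, Q, hw1, hQ0, hQd, hQl, hQv⟩
  choose w Q hwM hQ0 hQd hQl hQv using hlow'
  -- the parts of the scale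
  have hn1 : ∀ n, 0 ≤ ∑ l, ∑ o, ‖zq l o n‖ := fun n => Finset.sum_nonneg fun _ _ => Finset.sum_nonneg fun _ _ => norm_nonneg _
  have hn2 : ∀ n, 0 ≤ ∑ l, ‖xs l n‖ := fun n => Finset.sum_nonneg fun _ _ => norm_nonneg _
  have hn3 : ∀ n, 0 ≤ ∑ l, 1 / ‖xs l n‖ := fun n => Finset.sum_nonneg fun _ _ => by positivity
  have hn4 : ∀ n, 0 ≤ ∑ l, ∑ j ∈ Finset.range (d + 1), |(((p l n).coeff j : ℤ) : ℝ)| :=
    fun n => Finset.sum_nonneg fun _ _ => Finset.sum_nonneg fun _ _ => abs_nonneg _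
  have hn5 : ∀ n, 0 ≤ ∑ δ ∈ Finset.range (n + 1), 1 / c n δ :=
    fun n => Finset.sum_nonneg fun _ _ => by have := hc0 n; exact (one_div_pos.2 (this _)).le
  have hw : Sc w := by
    intro n
    have h0 := hwM n
    have h1 := hn1 n
    have h2 := hn2 n
    have h3 := hn3 n
    have h4 := hn4 n
    have h5 := hn5 n
    rw [hM] at h0
    simp only at h0
    linarith
  have hwz : ∀ l o n, ‖zq l o n‖ ≤ w n := by
    intro l o n
    have h0 := hwM n
    have h1 : ‖zq l o n‖ ≤ ∑ l, ∑ o, ‖zq l o n‖ :=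
      (Finset.single_le_sum (f := fun o => ‖zq l o n‖) (fun _ _ => norm_nonneg _) (Finset.mem_univ o)).trans
        (Finset.single_le_sum (f := fun l => ∑ o, ‖zq l o n‖) (fun _ _ => Finset.sum_nonneg fun _ _ => norm_nonneg _)
          (Finset.mem_univ l))
    have h2 := hn2 n
    have h3 := hn3 n
    have h4 := hn4 n
    have h5 := hn5 n
    rw [hM] at h0
    simp only at h0
    have h6 : (0 : ℝ) ≤ n := by positivity
    linarith
  have hwx : ∀ l n, ‖xs l n‖ ≤ w n := by
    intro l n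
    have h0 := hwM n
    have h1 := hn1 n
    have h2 : ‖xs l n‖ ≤ ∑ l, ‖xs l n‖ :=
      Finset.single_le_sum (f := fun l => ‖xs l n‖) (fun _ _ => norm_nonneg _) (Finset.mem_univ l)
    have h3 := hn3 n
    have h4 := hn4 n
    have h5 := hn5 n
    rw [hM] at h0
    simp only at h0
    have h6 : (0 : ℝ) ≤ n := by positivity
    linarith
  have hwx' : ∀ l n, 1 / ‖xs l n‖ ≤ w n := by
    intro l n
    have h0 := hwM n
    have h1 := hn1 n
    have h2 := hn2 n
    have h3 : 1 / ‖xs l n‖ ≤ ∑ l, 1 / ‖xs l n‖ :=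
      Finset.single_le_sum (f := fun l => 1 / ‖xs l n‖) (fun _ _ => by positivity) (Finset.mem_univ l)
    have h4 := hn4 n
    have h5 := hn5 n
    rw [hM] at h0
    simp only at h0
    have h6 : (0 : ℝ) ≤ n := by positivity
    linarith
  have hwp : ∀ l n j, |(((p l n).coeff j : ℤ) : ℝ)| ≤ w n := by
    intro l n j
    by_cases hj : j ∈ Finset.range (d + 1)
    · have h0 := hwM n
      have h1 := hn1 n
      have h2 := hn2 n
      have h3 := hn3 n
      have h4 : |(((p l n).coeff j : ℤ) : ℝ)| ≤ ∑ l, ∑ j ∈ Finset.range (d + 1), |(((p l n).coeff j : ℤ) : ℝ)| :=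
        (Finset.single_le_sum (f := fun j => |(((p l n).coeff j : ℤ) : ℝ)|) (fun _ _ => abs_nonneg _) hj).trans
          (Finset.single_le_sum (f := fun l => ∑ j ∈ Finset.range (d + 1), |(((p l n).coeff j : ℤ) : ℝ)|)
            (fun _ _ => Finset.sum_nonneg fun _ _ => abs_nonneg _) (Finset.mem_univ l))
      have h5 := hn5 n
      rw [hM] at h0
      simp only at h0
      have h6 : (0 : ℝ) ≤ n := by positivity
      linarith
    · rw [Finset.mem_range, not_lt] at hj
      rw [Polynomial.coeff_eq_zero_of_natDegree_lt (by have := hpd l n; omega), Int.cast_zero, abs_zero]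
      exact (hw.pos n).le
  have hwc : ∀ n δ, δ ≤ n → 1 / c n δ ≤ w n := by
    intro n δ hδ
    have h0 := hwM n
    have h1 := hn1 n
    have h2 := hn2 n
    have h3 := hn3 n
    have h4 := hn4 n
    have h5 : 1 / c n δ ≤ ∑ δ ∈ Finset.range (n + 1), 1 / c n δ :=
      Finset.single_le_sum (f := fun δ => 1 / c n δ) (fun δ _ => (one_div_pos.2 (hc0 n δ)).le)
        (Finset.mem_range.2 (Nat.lt_succ_of_le hδ))
    rw [hM] at h0
    simp only at h0
    have h6 : (0 : ℝ) ≤ n := by positivity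
    linarith
  -- the classes
  let x : Fin N → SB w hw := fun l => ⟨xs l, bd_of_le (hwx l)⟩
  let z : Fin N → Option (Fin r) → SB w hw := fun l o => ⟨zq l o, bd_of_le (hwz l o)⟩
  have hxsmall : ∀ ε : ℝ, 0 < ε → ∀ᶠ n in (hyperfilter ℕ : Filter ℕ), ∀ l,
      xs l n ≠ 0 ∧ ‖xs l n‖ < ε := by
    intro ε hε
    obtain ⟨n₀, hn₀⟩ := small_x G ε hε
    filter_upwards [ev_ge n₀] with n hn l
    rw [hxs]
    exact hn₀ n (H n) (g n l) (ξ n) hn (hbig n) (hgb n l).2
  -- (1)
  have hdep : ¬ AlgebraicIndependent (FZ w hw) (fun p : Fin N × Option I =>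
      cl w hw (z p.1 (p.2.map Subtype.val))) := by
    refine dep_of (fun p : Fin N × Option I => z p.1 (p.2.map Subtype.val)) Δ Q hQd hQ0 hQl fun n => ?_
    have h1 := hQv n
    have h2 : 0 < w n ^ n := pow_pos (hw.pos n) _
    have h3 : (fun i : Fin N × Option I => (z i.1 (i.2.map Subtype.val)).1 n) =
        fun i : Fin N × Option I => vc G h (ξ n) (g n i.1) (i.2.map Subtype.val) := by
      funext i
      show zq i.1 _ n = _
      rw [hzq]
    rw [h3]
    rw [← one_div, le_div_iff₀ h2, mul_comm]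
    exact h1.le
  -- (2)
  have halg : ∀ l, IsAlgebraic (FZ w hw) (cl w hw (x l)) := fun l =>
    alg_of (x l) d (p l) (hpd l) (hp0 l) (hwp l) (hpz l)
  have hroot : ∀ l, ∀ c : Polynomial ℚ, c ≠ 0 → Polynomial.aeval (cl w hw (x l)) c ≠ 0 := fun l c hc =>
    root_of (x l) (fun ε hε => (hxsmall ε hε).mono fun n hn => hn l) (fun n _ => hwx' l n) c hc
  -- (3)
  have hrel : ∀ l, ∀ R : MvPolynomial (Fin r) (Polynomial ℚ), MvPolynomial.aeval h R = 0 →
      MvPolynomial.eval₂ (Polynomial.aeval (cl w hw (x l)) : Polynomial ℚ →ₐ[ℚ] Om w hw).toRingHom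
        (fun j => cl w hw (z l (some j))) R = 0 := by
    intro l R hR
    refine rel_of (x l) (fun j => z l (some j)) R ?_
    obtain ⟨ε, hε, hεc⟩ := small_cvc h hsize
    filter_upwards [hxsmall ε hε] with n hn
    have h1 := (ev_aeval h (xs l n) (hεc _ (hn l).2) R).2
    rw [hR, ev_zero] at h1
    have h2 : (fun j => (z l (some j)).1 n) = fun j => evc (xs l n) (h j) := by
      funext j
      show zq l (some j) n = _
      rw [hzq, hxs]
      rfl
    rw [h2]
    exact h1.symm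
  -- (4)
  have hrank2 := hrk r h I hFree (FZ w hw) (Om w hw) N (fun l => cl w hw (x l)) (fun l o => cl w hw (z l o))
    halg hroot hrel hdep
  obtain ⟨n1, hn1'⟩ : ∃ n1, N * (I.card + 1) = n1 + 1 := by
    refine ⟨N * (I.card + 1) - 1, ?_⟩
    have : N * (I.card + 1) ≠ 0 := by
      intro h0
      rw [h0] at hrank2
      exact absurd hrank2 (by simp)
    omega
  have hrank3 : (matroid (FZ w hw) (Om w hw)).eRk (Set.range fun p : Fin N × Option (Fin r) =>
      cl w hw (z p.1 p.2)) ≤ (n1 : ℕ∞) := by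
    rw [hn1'] at hrank2
    have h1 : ((n1 + 1 : ℕ) : ℕ∞) = (n1 : ℕ∞) + 1 := by push_cast; rfl
    rw [h1] at hrank2
    exact Order.le_of_lt_add_one hrank2
  obtain ⟨C, hC⟩ := hhf (FZ w hw) (Om w hw) (Fin N × Option (Fin r)) (fun p => cl w hw (z p.1 p.2)) n1 hrank3
  -- (5)
  obtain ⟨s, hs⟩ : ∃ s : ℕ, 2 * A' * d * (C * (2 * N * (I.card + 1) + 1) ^ n1) ≤ s + 1 :=
    ⟨2 * A' * d * (C * (2 * N * (I.card + 1) + 1) ^ n1), Nat.le_succ _⟩
  obtain ⟨δ, hδ⟩ : ∃ δ, δ = (I.card + 1) * s := ⟨_, rfl⟩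
  have hMon : (s + 1) ^ I.card ≤ (B δ).card := by
    refine le_trans ?_ (hBcard δ)
    rw [hδ]
    exact card_Mon I s
  have hcard : (s + 1) ^ (n1 + 1) ≤ Fintype.card (Fin N → B δ × Fin (δ + 1)) := by
    rw [Fintype.card_fun, Fintype.card_prod, Fintype.card_coe, Fintype.card_fin, Fintype.card_fin,
      ← hn1', mul_comm N, pow_mul, pow_succ]
    refine Nat.pow_le_pow_left (Nat.mul_le_mul hMon ?_) N
    have : s ≤ δ := by
      rw [hδ]
      exact Nat.le_mul_of_pos_left s (Nat.succ_pos _)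
    omega
  have hdim : 2 * A' * d * (C * (2 * N * δ + 1) ^ n1) ≤
      Fintype.card (Fin N → B δ × Fin (δ + 1)) := by
    refine le_trans ?_ hcard
    have h1 : 2 * N * δ + 1 ≤ (2 * N * (I.card + 1) + 1) * (s + 1) := by
      rw [hδ]
      nlinarith [Nat.zero_le (2 * N * (I.card + 1)), Nat.zero_le s]
    calc 2 * A' * d * (C * (2 * N * δ + 1) ^ n1)
        ≤ 2 * A' * d * (C * ((2 * N * (I.card + 1) + 1) * (s + 1)) ^ n1) := by
          gcongr
      _ = (2 * A' * d * (C * (2 * N * (I.card + 1) + 1) ^ n1)) * (s + 1) ^ n1 := by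
          rw [mul_pow]; ring
      _ ≤ (s + 1) * (s + 1) ^ n1 := Nat.mul_le_mul_right _ hs
      _ = (s + 1) ^ (n1 + 1) := (pow_succ' _ _).symm
  -- (6) the products
  obtain ⟨ws, hws⟩ : ∃ ws : (Fin N → B δ × Fin (δ + 1)) → SB w hw, ws = fun b =>
    ∏ l, (yw (fun j => z l (some j)) (b l).1.1 * z l none ^ ((b l).2 : ℕ)) := ⟨_, rfl⟩
  have hyw : ∀ {R S : Type} [CommRing R] [CommRing S] (φ : R →+* S) (y : Fin r → R) (b : Fin δ → Option (Fin r)),
      φ (yw y b) = yw (fun j => φ (y j)) b := by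
    intro R S _ _ φ y b
    unfold yw
    rw [map_prod]
    refine Finset.prod_congr rfl fun j _ => ?_
    rcases b j with _ | i
    · exact map_one φ
    · rfl
  have hwsn : ∀ b n, ev w hw n (ws b) = ∏ l, (yw (fun j => vc G h (ξ n) (g n l) (some j)) (b l).1.1 *
      vc G h (ξ n) (g n l) none ^ ((b l).2 : ℕ)) := by
    intro b n
    rw [hws, map_prod]
    refine Finset.prod_congr rfl fun l _ => ?_
    rw [map_mul, map_pow, hyw]
    have h1 : ∀ o, ev w hw n (z l o) = vc G h (ξ n) (g n l) o := by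
      intro o
      show zq l o n = _
      rw [hzq]
    simp only [h1]
  obtain ⟨W, hW⟩ : ∃ W : (Fin N → B δ × Fin (δ + 1)) → Om w hw, W = fun b => cl w hw (ws b) := ⟨_, rfl⟩
  have hWmem : ∀ b, W b ∈ mons (fun p : Fin N × Option (Fin r) => cl w hw (z p.1 p.2))
      (2 * N * δ) := by
    intro b
    have e : W b = ∏ l, (yw (fun j => cl w hw (z l (some j))) (b l).1.1 *
        cl w hw (z l none) ^ ((b l).2 : ℕ)) := by
      rw [hW, hws]
      show cl w hw _ = _
      rw [map_prod]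
      refine Finset.prod_congr rfl fun l _ => ?_
      rw [map_mul, map_pow, hyw]
    rw [e]
    have h1 := mons_prod (fun p : Fin N × Option (Fin r) => cl w hw (z p.1 p.2)) Finset.univ
      (fun l => yw (fun j => cl w hw (z l (some j))) (b l).1.1 *
        cl w hw (z l none) ^ ((b l).2 : ℕ)) (δ + δ) (by
      intro l _
      refine mons_mul _ ?_ ?_
      · unfold yw
        have h2 := mons_prod (fun p : Fin N × Option (Fin r) => cl w hw (z p.1 p.2)) Finset.univ
          (fun i => ((b l).1.1 i).elim (1 : Om w hw) (fun j => cl w hw (z l (some j)))) 1 (by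
            intro i _
            cases (b l).1.1 i with
            | none => exact mons_mono _ (Nat.zero_le 1) (mons_one _)
            | some j => exact mons_var (fun p : Fin N × Option (Fin r) => cl w hw (z p.1 p.2)) (l, some j))
        rw [Finset.card_univ, Fintype.card_fin, mul_one] at h2
        exact h2
      · refine mons_mono _ (Nat.lt_succ_iff.1 (b l).2.2) (mons_pow _ ?_ _)
        exact mons_var (fun p : Fin N × Option (Fin r) => cl w hw (z p.1 p.2)) (l, none))
    rw [Finset.card_univ, Fintype.card_fin] at h1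
    refine mons_mono _ ?_ h1
    nlinarith
  -- (7) a maximal independent set of products
  have hfinm := mons_finite (fun p : Fin N × Option (Fin r) => cl w hw (z p.1 p.2)) (2 * N * δ)
  have hfdm : FiniteDimensional (FZ w hw) (Submodule.span (FZ w hw)
      (mons (fun p : Fin N × Option (Fin r) => cl w hw (z p.1 p.2)) (2 * N * δ))) :=
    FiniteDimensional.span_of_finite _ hfinm
  obtain ⟨κ, e₀, he₀, hspan, hli⟩ := exists_linearIndependent' (FZ w hw) W
  have hκ : Finite κ := Finite.of_injective e₀ he₀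
  have : Fintype κ := Fintype.ofFinite κ
  have hκcard : Fintype.card κ ≤ C * (2 * N * δ + 1) ^ n1 := by
    have h1 := finrank_span_eq_card hli
    rw [← h1]
    refine le_trans ?_ (hC (2 * N * δ))
    apply Submodule.finrank_mono
    apply Submodule.span_mono
    rintro _ ⟨k, rfl⟩
    exact hWmem _
  -- (8) the relations
  obtain ⟨S, hS⟩ : ∃ S : Finset (Fin N → B δ × Fin (δ + 1)), S = Finset.univ.filter (· ∉ Set.range e₀) := ⟨_, rfl⟩
  have hScard : Fintype.card (Fin N → B δ × Fin (δ + 1)) - S.card ≤ Fintype.card κ := by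
    have h1 : (Finset.univ.filter (· ∉ Set.range e₀)).card + (Finset.univ.image e₀).card =
        Fintype.card (Fin N → B δ × Fin (δ + 1)) := by
      have h0 := Finset.card_filter_add_card_filter_not (s := (Finset.univ : Finset (Fin N → B δ × Fin (δ + 1))))
        (fun b => b ∉ Set.range e₀)
      rw [← Finset.card_univ, ← h0]
      refine congrArg₂ (· + ·) rfl (congrArg Finset.card ?_)
      ext b
      simp
    have h2 : (Finset.univ.image e₀).card ≤ Fintype.card κ := Finset.card_image_le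
    rw [hS]
    omega
  have hrels : ∀ b : Fin N → B δ × Fin (δ + 1), ∃ (q : ZB w hw) (a : κ → ZB w hw), zc w hw q ≠ 0 ∧
      zc w hw q * W b = ∑ k, zc w hw (a k) * W (e₀ k) := by
    intro b
    have h1 : W b ∈ Submodule.span (FZ w hw) (Set.range (W ∘ e₀)) := by
      rw [hspan]
      exact Submodule.subset_span ⟨b, rfl⟩
    rw [Submodule.mem_span_range_iff_exists_fun] at h1
    obtain ⟨t, ht⟩ := h1
    obtain ⟨q, a, hq, hqa⟩ := common (fun k => ((t k : FZ w hw) : Om w hw)) (fun k => (t k).2)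
    refine ⟨q, a, hq, ?_⟩
    rw [← ht, Finset.mul_sum]
    refine Finset.sum_congr rfl fun k _ => ?_
    rw [← hqa k, mul_assoc]
    rfl
  choose q a hq hqa using hrels
  let e : Fin S.card ≃ S := S.equivFin.symm
  have heS : ∀ i, ((e i : S) : Fin N → B δ × Fin (δ + 1)) ∉ Set.range e₀ := by
    intro i
    have h1 : ∀ b ∈ S, b ∉ Set.range e₀ := by
      intro b hb
      rw [hS, Finset.mem_filter] at hb
      exact hb.2
    exact h1 _ (e i).2
  obtain ⟨v, hv⟩ : ∃ v : Fin S.card → (Fin N → B δ × Fin (δ + 1)) → ZB w hw, v = fun i b =>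
    (if b = (e i).1 then q (e i).1 else 0) - ∑ k, if b = e₀ k then a (e i).1 k else 0 := ⟨_, rfl⟩
  -- (a) bounded
  obtain ⟨k₀, hk₀⟩ := bd_fin hw (fun p : Fin S.card × (Fin N → B δ × Fin (δ + 1)) => fun n => ((v p.1 p.2).1 n : ℂ))
    (fun p => (v p.1 p.2).2)
  -- (b) small values
  have hsmall : ∀ k : ℕ, ∀ᶠ n in (hyperfilter ℕ : Filter ℕ), ∀ i,
      ‖∑ b, (((v i b).1 n : ℤ) : ℂ) * ∏ l, (yw (fun j => vc G h (ξ n) (g n l) (some j)) (b l).1.1 *
        vc G h (ξ n) (g n l) none ^ ((b l).2 : ℕ))‖ ≤ (w n ^ k)⁻¹ := by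
    intro k
    rw [eventually_all]
    intro i
    have h1 : cl w hw (∑ b, zs w hw (v i b) * ws b) = 0 := by
      rw [map_sum]
      have h2 : ∀ b, cl w hw (zs w hw (v i b) * ws b) = zc w hw (v i b) * W b := by
        intro b
        rw [map_mul, hW]
        rfl
      simp only [h2]
      have h3 : ∀ b, zc w hw (v i b) * W b = (if b = (e i).1 then zc w hw (q (e i).1) * W b else 0) -
          ∑ k, if b = e₀ k then zc w hw (a (e i).1 k) * W b else 0 := by
        intro b
        rw [hv]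
        simp only [map_sub, map_sum]
        rw [sub_mul, Finset.sum_mul]
        congr 1
        · split_ifs
          · rfl
          · rw [map_zero, zero_mul]
        · refine Finset.sum_congr rfl fun k _ => ?_
          split_ifs
          · rfl
          · rw [map_zero, zero_mul]
      simp only [h3]
      rw [Finset.sum_sub_distrib, Finset.sum_ite_eq' Finset.univ, if_pos (Finset.mem_univ _), hqa, Finset.sum_comm]
      rw [sub_eq_zero]
      refine Finset.sum_congr rfl fun k _ => ?_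
      rw [Finset.sum_ite_eq' Finset.univ, if_pos (Finset.mem_univ _)]
    rw [cl_eq_zero'] at h1
    filter_upwards [h1 k] with n hn
    refine le_trans (le_of_eq ?_) hn
    congr 1
    rw [map_sum]
    refine Finset.sum_congr rfl fun b _ => ?_
    rw [map_mul, hwsn, ev_zs]
  -- (c) independence
  have hq0 : ∀ᶠ n in (hyperfilter ℕ : Filter ℕ), ∀ b, (q b).1 n ≠ 0 := by
    rw [eventually_all]
    intro b
    rw [Ultrafilter.eventually_not]
    exact fun h => hq b (zc_eq_zero.2 h)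
  obtain ⟨n, h1, h2, h3, h4, h5⟩ := (hk₀.and ((hsmall (k₀ * Bx δ + 2)).and (hq0.and ((ev_ge (E δ)).and (ev_ge δ))))).exists
  have hfinal := hc n δ h4 S.card (fun i b => (v i b).1 n) (w n ^ k₀) ((w n ^ (k₀ * Bx δ + 2))⁻¹) ?_
    (one_le_pow₀ (hw.one n)) (inv_nonneg.2 (pow_nonneg (hw.pos n).le _)) (fun i b => ?_) h2 ?_
  · have h6 := hwc n δ h5
    have h7 := hw.pos n
    have h8 := hc0 n δ
    rw [← pow_mul, pow_add] at hfinal
    have h9 : (w n ^ (k₀ * Bx δ) * w n ^ 2)⁻¹ * w n ^ (k₀ * Bx δ) = (w n ^ 2)⁻¹ := by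
      field_simp
    rw [h9] at hfinal
    rw [div_le_iff₀ h8] at h6
    have h10 : 1 ≤ w n * (w n ^ 2)⁻¹ := h6.trans (mul_le_mul_of_nonneg_left hfinal h7.le)
    have h11 : w n * (w n ^ 2)⁻¹ = (w n)⁻¹ := by field_simp
    rw [h11] at h10
    have h12 : (w n)⁻¹ < 1 := inv_lt_one_of_one_lt₀ (by linarith [hw.two n])
    linarith
  · rw [Fintype.linearIndependent_iff]
    intro t ht i
    have h6 := congrFun ht (e i).1
    rw [Finset.sum_apply, Pi.zero_apply, Finset.sum_eq_single i] at h6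
    · rw [Pi.smul_apply, smul_eq_mul] at h6
      have h7 : (v i (e i).1).1 n = (q (e i).1).1 n := by
        rw [hv]
        simp only [if_true]
        rw [Finset.sum_eq_zero, sub_zero]
        intro k _
        rw [if_neg]
        intro h8
        exact heS i ⟨k, h8.symm⟩
      rw [h7] at h6
      refine (mul_eq_zero.1 h6).resolve_right ?_
      exact_mod_cast h3 _
    · intro i' _ hi'
      rw [Pi.smul_apply, smul_eq_mul]
      have h7 : (v i' (e i).1).1 n = 0 := by
        rw [hv]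
        simp only
        rw [if_neg, Finset.sum_eq_zero, sub_zero]
        · rfl
        · intro k _
          rw [if_neg]
          intro h8
          exact heS i ⟨k, h8.symm⟩
        · intro h8
          exact hi' (e.injective (Subtype.ext h8)).symm
      rw [h7, Int.cast_zero, mul_zero]
    · intro h7
      exact absurd (Finset.mem_univ i) h7
  · have h6 := h1 (i, b)
    simp only [Complex.norm_intCast] at h6
    exact h6
  · refine le_trans (Nat.mul_le_mul_left _ ?_) hdim
    exact hScard.trans hκcard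

end Pool.Agent.Q246.AF
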