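import Pool.Agent.Y120.A.Gf
import Pool.Agent.Y37.GF.LI
import Pool.Agent.Y37.GF.Ev
import Pool.Agent.Q246.AF.Nrs

/-!
# The Legendre family
-/

set_option autoImplicit false

open PowerSeries

namespace Pool.Agent.Q246.AF

open Pool.Agent.Y113 Pool.Agent.Y37.GF Pool.Agent.Y916.Af Pool.Agent.Q246.NR2

lemma sdc_neg {f : ℚ⟦X⟧} (h : SDc f) : SDc (-f) := by
  have h1 := (SDc.int (-1)).mul h
  have e : ((-1 : ℤ) : ℚ⟦X⟧) * f = -f := by push_cast; ring
  rwa [e] at h1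

/-- `ps` as a ring homomorphism -/
noncomputable def psH : Polynomial ℤ →+* ℚ⟦X⟧ :=
  (Polynomial.coeToPowerSeries.ringHom).comp (Polynomial.mapRingHom (Int.castRingHom ℚ))

lemma ps_eq (P : Polynomial ℤ) : ps P = psH P := rfl

lemma psH_X : psH Polynomial.X = X := by
  rw [← ps_eq]; unfold ps; simp

/-- the four functions: `F`, `2 H`, `(G - F) / 2`, `K - H` -/
noncomputable def hL : Fin 4 → ℚ⟦X⟧ := ![Fs, 2 * Hs, PowerSeries.C (1 / 2 : ℚ) * (Gs - Fs), Ks - Hs]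

lemma half_two : (PowerSeries.C (1 / 2 : ℚ) : ℚ⟦X⟧) * 2 = 1 := by
  rw [← map_ofNat (PowerSeries.C : ℚ →+* ℚ⟦X⟧) 2, ← map_mul]
  norm_num

lemma sdc_sub {f g : ℚ⟦X⟧} (h : SDc f) (h' : SDc g) : SDc (f - g) := by
  have h1 := h.add ((SDc.int (-1)).mul h')
  have e : f + ((-1 : ℤ) : ℚ⟦X⟧) * g = f - g := by push_cast; ring
  rwa [e] at h1

lemma sdc_two : SDc (2 : ℚ⟦X⟧) := by simpa using SDc.int 2

lemma sdc_half : SDc (PowerSeries.C (1 / 2 : ℚ)) := ⟨1, by simpa using SDp.half⟩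

theorem gfs_leg : ∃ (T : Polynomial ℤ) (A : Fin 4 → Fin 4 → Polynomial ℤ), GFs T A hL := by
  set H10 : ℚ⟦X⟧ := PowerSeries.C (1 / 2 : ℚ) * (Gs - Fs) with hH10
  have e10 : 2 * H10 = Gs - Fs := by
    rw [hH10]
    linear_combination (Gs - Fs) * half_two
  set H : Matrix (Fin 2) (Fin 2) ℚ⟦X⟧ := !![Fs, 2 * Hs; H10, Ks - Hs] with hH
  set W : Matrix (Fin 2) (Fin 2) ℚ⟦X⟧ := !![Ks - Hs, -(2 * Hs); -H10, Fs] with hW
  set T₁ : Polynomial ℤ := 4 * (1 - Polynomial.X) with hT₁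
  have hT : T₁ ≠ 0 := by
    intro h0
    have := congrArg (Polynomial.eval 0) h0
    rw [hT₁] at this
    simp at this
  have sF := SDc.Fs
  have sH := SDc.Hs
  have sG := SDc.Gs
  have sK := SDc.Ks
  have s01 : SDc (2 * Hs) := sdc_two.mul sH
  have s10 : SDc H10 := sdc_half.mul (sdc_sub sG sF)
  have s11 : SDc (Ks - Hs) := sdc_sub sK sH
  have psT : ps T₁ = 4 * (1 - X) := by
    rw [hT₁, ps_eq, map_mul, map_sub, map_one, psH_X, map_ofNat]
  have ps2X : ps (2 * Polynomial.X) = 2 * X := by rw [ps_eq, map_mul, psH_X, map_ofNat]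
  have ps4 : ps (4 : Polynomial ℤ) = 4 := by
    rw [ps_eq, map_ofNat]
  have psmX : ps (-Polynomial.X) = -X := by rw [ps_eq, map_neg, psH_X]
  have psm2X : ps (-(2 * Polynomial.X)) = -(2 * X) := by rw [ps_eq, map_neg, map_mul, psH_X, map_ofNat]
  have oF := ode_F
  have oG := ode_G
  have oH := ode_H
  have oK := ode_K
  have dH10 : 2 * d⁄dX ℚ H10 = d⁄dX ℚ Gs - d⁄dX ℚ Fs := by
    have h1 := congrArg (d⁄dX ℚ) e10
    rw [map_sub, Derivation.leibniz] at h1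
    have h2 : d⁄dX ℚ (2 : ℚ⟦X⟧) = 0 := by
      rw [← map_ofNat (PowerSeries.C : ℚ →+* ℚ⟦X⟧) 2, derivative_C]
    rw [h2, smul_zero, add_zero, smul_eq_mul] at h1
    exact h1
  have d2H : d⁄dX ℚ (2 * Hs) = 2 * d⁄dX ℚ Hs := by
    rw [Derivation.leibniz]
    have h2 : d⁄dX ℚ (2 : ℚ⟦X⟧) = 0 := by
      rw [← map_ofNat (PowerSeries.C : ℚ →+* ℚ⟦X⟧) 2, derivative_C]
    rw [h2, smul_zero, add_zero, smul_eq_mul]
  have hfam := Pool.Agent.Y120.J.A.gfs_gen (n := 2) (H := H) (W := W) (N := !![0, 1; 0, 0]) (Nz := ![![0, 1], ![0, 0]])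
    (T₁ := T₁) (A := ![![2 * Polynomial.X, 4], ![-Polynomial.X, -(2 * Polynomial.X)]]) ?_ ?_ hT ?_ ?_ ?_ ?_ ?_
  · have he : (fun a : Fin (2 * 2) => H (Pool.Agent.Y119.HZ.ix 2 a).1 (Pool.Agent.Y119.HZ.ix 2 a).2) = hL := by
      funext a
      fin_cases a <;> rfl
    rw [he] at hfam
    exact ⟨_, _, hfam⟩
  · rw [pow_two]
    ext i j
    fin_cases i <;> fin_cases j <;> simp [Matrix.mul_apply, Fin.sum_univ_two]
  · intro i j
    fin_cases i <;> fin_cases j <;> simp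
  · rw [hH, hW, Matrix.mul_fin_two]
    have hl := leg
    refine Matrix.ext fun i j => ?_
    fin_cases i <;> fin_cases j
    · show Fs * (Ks - Hs) + 2 * Hs * -H10 = 1
      linear_combination hl - Hs * e10
    · show Fs * -(2 * Hs) + 2 * Hs * Fs = 0
      ring
    · show H10 * (Ks - Hs) + (Ks - Hs) * -H10 = 0
      ring
    · show H10 * -(2 * Hs) + (Ks - Hs) * Fs = 1
      linear_combination hl - Hs * e10
  · intro i j
    fin_cases i <;> fin_cases j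
    · show coeff 0 Fs = 1
      rw [coeff_Fs, cc_zero]
    · show coeff 0 (2 * Hs) = 0
      rw [coeff_zero_eq_constantCoeff_apply, map_mul, ← coeff_zero_eq_constantCoeff_apply Hs, coeff_Hs, qq_zero]
      simp
    · show coeff 0 H10 = 0
      rw [hH10, coeff_C_mul, map_sub, coeff_zero_Gs, coeff_Fs]
      simp
    · show coeff 0 (Ks - Hs) = 1
      rw [map_sub, coeff_zero_Ks, coeff_Hs, cc_zero, qq_zero]
      simp
  · intro i j
    have h0 : ps (0 : Polynomial ℤ) = 0 := by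
      unfold ps
      simp
    fin_cases i <;> fin_cases j
    · show ps T₁ * (X * d⁄dX ℚ Fs + ∑ k, H 0 k * C ((!![0, 1; 0, 0] : Matrix (Fin 2) (Fin 2) ℚ) k 0)) =
        ∑ k, ps ((![![2 * Polynomial.X, 4], ![-Polynomial.X, -(2 * Polynomial.X)]] : Fin 2 → Fin 2 → Polynomial ℤ) 0 k) * H k 0
      rw [Fin.sum_univ_two, Fin.sum_univ_two]
      show ps T₁ * (X * d⁄dX ℚ Fs + (Fs * C (0 : ℚ) + 2 * Hs * C (0 : ℚ))) = ps (2 * Polynomial.X) * Fs + ps 4 * H10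
      rw [map_zero, psT, ps2X, ps4]
      linear_combination 2 * oF - 2 * e10
    · show ps T₁ * (X * d⁄dX ℚ (2 * Hs) + ∑ k, H 0 k * C ((!![0, 1; 0, 0] : Matrix (Fin 2) (Fin 2) ℚ) k 1)) =
        ∑ k, ps ((![![2 * Polynomial.X, 4], ![-Polynomial.X, -(2 * Polynomial.X)]] : Fin 2 → Fin 2 → Polynomial ℤ) 0 k) * H k 1
      rw [Fin.sum_univ_two, Fin.sum_univ_two]
      show ps T₁ * (X * d⁄dX ℚ (2 * Hs) + (Fs * C (1 : ℚ) + 2 * Hs * C (0 : ℚ))) = ps (2 * Polynomial.X) * (2 * Hs) + ps 4 * (Ks - Hs)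
      rw [map_zero, map_one, psT, ps2X, ps4, d2H]
      linear_combination 4 * oH
    · show ps T₁ * (X * d⁄dX ℚ H10 + ∑ k, H 1 k * C ((!![0, 1; 0, 0] : Matrix (Fin 2) (Fin 2) ℚ) k 0)) =
        ∑ k, ps ((![![2 * Polynomial.X, 4], ![-Polynomial.X, -(2 * Polynomial.X)]] : Fin 2 → Fin 2 → Polynomial ℤ) 1 k) * H k 0
      rw [Fin.sum_univ_two, Fin.sum_univ_two]
      show ps T₁ * (X * d⁄dX ℚ H10 + (H10 * C (0 : ℚ) + (Ks - Hs) * C (0 : ℚ))) =
        ps (-Polynomial.X) * Fs + ps (-(2 * Polynomial.X)) * H10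
      rw [map_zero, psT, psmX, psm2X]
      linear_combination 2 * (1 - X) * X * dH10 + (1 - X) * oG - oF + X * e10
    · show ps T₁ * (X * d⁄dX ℚ (Ks - Hs) + ∑ k, H 1 k * C ((!![0, 1; 0, 0] : Matrix (Fin 2) (Fin 2) ℚ) k 1)) =
        ∑ k, ps ((![![2 * Polynomial.X, 4], ![-Polynomial.X, -(2 * Polynomial.X)]] : Fin 2 → Fin 2 → Polynomial ℤ) 1 k) * H k 1
      rw [Fin.sum_univ_two, Fin.sum_univ_two]
      show ps T₁ * (X * d⁄dX ℚ (Ks - Hs) + (H10 * C (1 : ℚ) + (Ks - Hs) * C (0 : ℚ))) =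
        ps (-Polynomial.X) * (2 * Hs) + ps (-(2 * Polynomial.X)) * (Ks - Hs)
      rw [map_zero, map_one, psT, psmX, psm2X, map_sub]
      linear_combination 2 * (1 - X) * oK - 2 * oH + 2 * (1 - X) * e10
  · intro i j
    fin_cases i <;> fin_cases j
    · exact sF
    · exact s01
    · exact s10
    · exact s11
  · intro i j
    fin_cases i <;> fin_cases j
    · exact s11
    · exact sdc_neg s01
    · exact sdc_neg s10
    · exact sF

end Pool.Agent.Q246.AF
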