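import Pool.Agent.Q246.AF.Leg

/-!
# The Legendre family: the free coordinates
-/

set_option autoImplicit false

open PowerSeries

namespace Pool.Agent.Q246.AF

open Pool.Agent.Y113 Pool.Agent.Y37.GF Pool.Agent.Y916.Af Pool.Agent.Q246.NR2

lemma sh_zero : sh 0 = X := by
  ext m
  rw [sh, coeff_mk, coeff_X]
  rcases m with _ | _ | m
  · simp
  · simp
  · simp

lemma lg_zero : lg 0 = 0 := by
  ext m
  rw [lg, coeff_mk]
  rcases m with _ | m
  · simp
  · simp

lemma uu_zero : uu 0 = Fs := by rw [uu, sh_zero, X_subst]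
lemma vv_zero : vv 0 = Gs := by rw [vv, sh_zero, X_subst]
lemma ww_zero : ww 0 = -Hs := by rw [ww, sh_zero, X_subst, lg_zero, mul_zero, mul_zero, zero_sub]

/-- `F`, `G`, `- H` are algebraically independent -/
theorem ind0 : AlgebraicIndependent (Polynomial ℚ) (![Fs, Gs, -Hs] : Fin 3 → ℚ⟦X⟧) := by
  classical
  rw [algebraicIndependent_iff]
  intro P hP
  set Δ := P.totalDegree with hΔ
  have hLI := t_LI 1 Δ (fun _ => 0) (fun _ _ _ => Subsingleton.elim _ _)
  have hdeg : ∀ s : P.support, s.1 0 + s.1 1 + s.1 2 ≤ Δ := by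
    intro s
    have h1 := MvPolynomial.le_totalDegree s.2
    rw [Finsupp.sum_fintype _ _ (fun _ => rfl), Fin.sum_univ_three] at h1
    exact h1
  let e : P.support → Fin 1 → Ex Δ := fun s _ =>
    ⟨![⟨s.1 0, by have := hdeg s; omega⟩, ⟨s.1 1, by have := hdeg s; omega⟩, ⟨s.1 2, by have := hdeg s; omega⟩, 0], by
      rw [Fin.sum_univ_four]
      exact hdeg s, Or.inr rfl⟩
  have hinj : Function.Injective e := by
    intro s s' h
    have h1 := congrArg Subtype.val (congrFun h 0)
    apply Subtype.ext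
    ext i
    fin_cases i
    · exact congrArg Fin.val (congrFun h1 0)
    · exact congrArg Fin.val (congrFun h1 1)
    · exact congrArg Fin.val (congrFun h1 2)
  have h2 := Fintype.linearIndependent_iff.1 (hLI.comp e hinj) (fun s => P.coeff s.1) (by
    rw [← hP, MvPolynomial.aeval_def, MvPolynomial.eval₂_eq', ← Finset.sum_coe_sort P.support]
    refine Finset.sum_congr rfl fun s _ => ?_
    rw [Algebra.smul_def]
    congr 1
    show pmon (fun _ : Fin 1 => 0) (e s) = _
    rw [pmon, Fin.prod_univ_one, mon, Fin.prod_univ_four, Fin.prod_univ_three]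
    show uu 0 ^ _ * vv 0 ^ _ * ww 0 ^ _ * xx 0 ^ 0 = Fs ^ _ * Gs ^ _ * (-Hs) ^ _
    rw [uu_zero, vv_zero, ww_zero, pow_zero, mul_one]
    rfl)
  ext s : 1
  rw [MvPolynomial.coeff_zero]
  by_cases hs : s ∈ P.support
  · exact h2 ⟨s, hs⟩
  · exact MvPolynomial.notMem_support_iff.1 hs

/-- independence from a retraction -/
lemma ind_retract {R S : Type} [CommRing R] [CommRing S] [Algebra R S] {ι κ : Type} {f : ι → S} (hf : AlgebraicIndependent R f)
    (F : κ → MvPolynomial ι R) (G : ι → MvPolynomial κ R) (h : ∀ k, MvPolynomial.aeval G (F k) = MvPolynomial.X k) :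
    AlgebraicIndependent R (fun k => MvPolynomial.aeval f (F k)) := by
  rw [algebraicIndependent_iff]
  intro P hP
  have h1 : MvPolynomial.aeval f (MvPolynomial.aeval F P) = 0 := by
    rw [← hP]
    have h2 : (MvPolynomial.aeval f).comp (MvPolynomial.aeval F) = MvPolynomial.aeval (R := R) (fun k => MvPolynomial.aeval f (F k)) := by
      refine MvPolynomial.algHom_ext fun k => ?_
      simp
    exact DFunLike.congr_fun h2 P
  have h3 := (algebraicIndependent_iff.1 hf) _ h1
  have h4 : (MvPolynomial.aeval G).comp (MvPolynomial.aeval F) = AlgHom.id R (MvPolynomial κ R) := by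
    refine MvPolynomial.algHom_ext fun k => ?_
    simp only [AlgHom.comp_apply, MvPolynomial.aeval_X, h, AlgHom.id_apply]
  have h5 := DFunLike.congr_fun h4 P
  rw [AlgHom.comp_apply, h3, map_zero] at h5
  exact h5.symm

/-- the free coordinates -/
def I3 : Finset (Fin 4) := {0, 1, 2}

theorem free_leg : Free hL I3 := by
  classical
  obtain ⟨c2, hc2⟩ : ∃ c2 : Polynomial ℚ, c2 = Polynomial.C (1 / 2) := ⟨_, rfl⟩
  have hh : (PowerSeries.C (1 / 2 : ℚ) : ℚ⟦X⟧) = algebraMap (Polynomial ℚ) ℚ⟦X⟧ c2 := by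
    rw [PowerSeries.algebraMap_apply', hc2]
    simp
  constructor
  · have h1 := ind_retract ind0 (κ := Fin 3)
      ![MvPolynomial.X 0, -(2 * MvPolynomial.X 2),
        MvPolynomial.C c2 * (MvPolynomial.X 1 - MvPolynomial.X 0)]
      ![MvPolynomial.X 0, 2 * MvPolynomial.X 2 + MvPolynomial.X 0,
        -(MvPolynomial.C c2 * MvPolynomial.X 1)] ?_
    · have h2 : (fun k : Fin 3 => MvPolynomial.aeval (![Fs, Gs, -Hs] : Fin 3 → ℚ⟦X⟧)
          ((![MvPolynomial.X 0, -(2 * MvPolynomial.X 2),
        MvPolynomial.C c2 * (MvPolynomial.X 1 - MvPolynomial.X 0)] : Fin 3 → MvPolynomial (Fin 3) (Polynomial ℚ)) k)) =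
          fun k : Fin 3 => hL k.castSucc := by
        funext k
        fin_cases k
        · simp [hL]
        · simp [hL]
        · show MvPolynomial.aeval _ (MvPolynomial.C c2 * (MvPolynomial.X 1 - MvPolynomial.X 0)) =
            PowerSeries.C (1 / 2 : ℚ) * (Gs - Fs)
          rw [map_mul, map_sub, MvPolynomial.aeval_X, MvPolynomial.aeval_X, MvPolynomial.aeval_C, hh]
          rfl
      rw [h2] at h1
      have hlt : ∀ i : I3, (i.1 : ℕ) < 3 := by
        rintro ⟨i, hi⟩
        fin_cases i
        · simp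
        · simp
        · simp
        · simp [I3] at hi
      exact h1.comp (fun i : I3 => (⟨i.1.1, hlt i⟩ : Fin 3)) fun i j hij => Subtype.ext (Fin.ext (by simpa using hij))
    · have h5 : (MvPolynomial.C c2 : MvPolynomial (Fin 3) (Polynomial ℚ)) * 2 = 1 := by
        rw [← map_ofNat (MvPolynomial.C : Polynomial ℚ →+* MvPolynomial (Fin 3) (Polynomial ℚ)) 2, ← map_mul, hc2,
          ← map_ofNat (Polynomial.C : ℚ →+* Polynomial ℚ) 2, ← map_mul]
        norm_num
      intro k
      fin_cases k
      · show MvPolynomial.aeval _ (MvPolynomial.X 0) = _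
        rw [MvPolynomial.aeval_X]
        rfl
      · show MvPolynomial.aeval _ (-(2 * MvPolynomial.X 2)) = _
        rw [map_neg, map_mul, MvPolynomial.aeval_X, map_ofNat]
        show -(2 * -(MvPolynomial.C c2 * MvPolynomial.X 1)) = MvPolynomial.X 1
        linear_combination (MvPolynomial.X 1) * h5
      · show MvPolynomial.aeval _ (MvPolynomial.C c2 * (MvPolynomial.X 1 - MvPolynomial.X 0)) = _
        rw [map_mul, map_sub, MvPolynomial.aeval_X, MvPolynomial.aeval_X, MvPolynomial.aeval_C]
        show MvPolynomial.C c2 * (2 * MvPolynomial.X 2 + MvPolynomial.X 0 - MvPolynomial.X 0) = MvPolynomial.X 2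
        linear_combination (MvPolynomial.X 2) * h5
  · intro s hs hind
    have hs3 : s = 3 := by
      revert hs
      fin_cases s <;> simp [I3]
    subst hs3
    rw [algebraicIndependent_iff] at hind
    set R : MvPolynomial (Option I3) (Polynomial ℚ) := MvPolynomial.X (some ⟨0, by simp [I3]⟩) * MvPolynomial.X none -
      MvPolynomial.X (some ⟨1, by simp [I3]⟩) * MvPolynomial.X (some ⟨2, by simp [I3]⟩) - 1 with hR
    have h0 := hind R (by
      rw [hR]
      simp only [map_sub, map_mul, MvPolynomial.aeval_X, map_one, Option.elim]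
      show Fs * (Ks - Hs) - 2 * Hs * (PowerSeries.C (1 / 2 : ℚ) * (Gs - Fs)) - 1 = 0
      have hl := leg
      linear_combination hl - Hs * (Gs - Fs) * half_two)
    have h1 := congrArg MvPolynomial.constantCoeff h0
    rw [hR] at h1
    simp at h1

end Pool.Agent.Q246.AF
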