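import Pool.Agent.Q246.AF.LegI
import Pool.Agent.Q246.NR2.Shift
import Pool.Agent.Q246.NR2.Prop2

/-!
# The Legendre family: the link
-/

set_option autoImplicit false

open PowerSeries Module

namespace Pool.Agent.Q246.AF

open Pool.Agent.Y113 Pool.Agent.Y37.GF Pool.Agent.Y916.Af Pool.Agent.Y916.Al Pool.Agent.Q246.NR2 Pool.Agent.Q246.NR

lemma evc_real (s : ℝ) (f : ℚ⟦X⟧) : evc (s : ℂ) f = ((E f s : ℝ) : ℂ) := by
  rw [evc, E, Complex.ofReal_tsum]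
  congr 1
  funext m
  push_cast
  rfl

/-- the three numbers -/
noncomputable def yL (z : ℂ) : Fin 3 → ℂ :=
  ![((KK (1 / z.re) : ℝ) : ℂ), ((EE (1 / z.re) : ℝ) : ℂ), ((KK (1 - 1 / z.re) : ℝ) : ℂ)]

/-- real numbers larger than one -/
def DL (z : ℂ) : Prop := z.im = 0 ∧ 1 < z.re

lemma E_two_H {s : ℝ} (hs : |s| ≤ 1 / 8) : E (2 * Hs) s = 2 * E Hs s := by
  have h1 : SR (1 / 8) (2 : ℚ⟦X⟧) := by
    have := SR.C 2 (1 / 8)
    rwa [map_ofNat] at this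
  rw [E_mul h1 SR_H hs]
  have h2 := E_C 2 s
  rw [map_ofNat] at h2
  rw [h2]
  norm_num

lemma E_half {s : ℝ} (hs : |s| ≤ 1 / 8) : E (PowerSeries.C (1 / 2 : ℚ) * (Gs - Fs)) s = 1 / 2 * (E Gs s - E Fs s) := by
  rw [E_mul (SR.C _ _) (SR.sub (by norm_num) SR_G SR_F) hs, E_sub SR_G SR_F hs, E_C]
  norm_num

/-- the index of a function -/
def i3 (j : Fin 4) (hj : j ∈ I3) : Option I3 := some ⟨j, hj⟩

/-- the polynomials -/
noncomputable def FL : Fin 3 → MvPolynomial (Option I3 ⊕ Fin 3) ℤ :=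
  ![MvPolynomial.X (Sum.inr 0) * MvPolynomial.X (Sum.inl (i3 0 (by decide))),
    MvPolynomial.X (Sum.inr 0) * (2 * MvPolynomial.X (Sum.inl (i3 2 (by decide))) +
      MvPolynomial.X (Sum.inl (i3 0 (by decide)))),
    MvPolynomial.X (Sum.inr 2) * (MvPolynomial.X (Sum.inl none) * MvPolynomial.X (Sum.inl (i3 0 (by decide)))) +
      MvPolynomial.X (Sum.inr 1) * MvPolynomial.X (Sum.inl (i3 0 (by decide))) -
      MvPolynomial.X (Sum.inr 2) * MvPolynomial.X (Sum.inl (i3 1 (by decide)))]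

lemma deg_X {σ : Type} (i : σ) : (MvPolynomial.X i : MvPolynomial σ ℤ).totalDegree ≤ 1 := by
  rw [MvPolynomial.totalDegree_X]

lemma deg_m {σ : Type} {p q : MvPolynomial σ ℤ} {a b : ℕ} (hp : p.totalDegree ≤ a) (hq : q.totalDegree ≤ b) :
    (p * q).totalDegree ≤ a + b := (MvPolynomial.totalDegree_mul _ _).trans (Nat.add_le_add hp hq)

lemma deg_a {σ : Type} {p q : MvPolynomial σ ℤ} {a : ℕ} (hp : p.totalDegree ≤ a) (hq : q.totalDegree ≤ a) :
    (p + q).totalDegree ≤ a := (MvPolynomial.totalDegree_add _ _).trans (max_le hp hq)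

lemma deg_s {σ : Type} {p q : MvPolynomial σ ℤ} {a : ℕ} (hp : p.totalDegree ≤ a) (hq : q.totalDegree ≤ a) :
    (p - q).totalDegree ≤ a := (MvPolynomial.totalDegree_sub _ _).trans (max_le hp hq)

lemma deg_2 {σ : Type} : (2 : MvPolynomial σ ℤ).totalDegree ≤ 0 := by
  have h : (2 : MvPolynomial σ ℤ) = MvPolynomial.C 2 := (map_ofNat MvPolynomial.C 2).symm
  rw [h, MvPolynomial.totalDegree_C]

lemma FL_deg (k : Fin 3) : (FL k).totalDegree ≤ 3 := by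
  fin_cases k
  · exact (deg_m (deg_X _) (deg_X _)).trans (by norm_num)
  · exact (deg_m (deg_X _) (deg_a ((deg_m deg_2 (deg_X _)).trans (le_refl 1)) (deg_X _))).trans (by norm_num)
  · refine deg_s (deg_a ?_ ?_) ?_
    · exact (deg_m (deg_X _) (deg_m (deg_X _) (deg_X _))).trans (by norm_num)
    · exact (deg_m (deg_X _) (deg_X _)).trans (by norm_num)
    · exact (deg_m (deg_X _) (deg_X _)).trans (by norm_num)

lemma FL_ev0 {R : Type} [CommRing R] [Algebra ℤ R] (v : Option I3 → R) (u : Fin 3 → R) :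
    MvPolynomial.aeval (Sum.elim v u) (FL 0) = u 0 * v (i3 0 (by decide)) := by
  simp [FL]

lemma FL_ev1 {R : Type} [CommRing R] [Algebra ℤ R] (v : Option I3 → R) (u : Fin 3 → R) :
    MvPolynomial.aeval (Sum.elim v u) (FL 1) = u 0 * (2 * v (i3 2 (by decide)) + v (i3 0 (by decide))) := by
  simp [FL]

lemma FL_ev2 {R : Type} [CommRing R] [Algebra ℤ R] (v : Option I3 → R) (u : Fin 3 → R) :
    MvPolynomial.aeval (Sum.elim v u) (FL 2) =
      u 2 * (v none * v (i3 0 (by decide))) + u 1 * v (i3 0 (by decide)) - u 2 * v (i3 1 (by decide)) := by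
  simp [FL]

/-- the images of the variables -/
noncomputable def wL (u : Fin 3 → ℂ) : Option I3 → MvPolynomial (Fin 3) ℂ
  | none => 0
  | some i => ![MvPolynomial.C (u 0)⁻¹ * MvPolynomial.X 0,
      MvPolynomial.C (u 2)⁻¹ * (MvPolynomial.C (u 1) * MvPolynomial.C (u 0)⁻¹ * MvPolynomial.X 0 - MvPolynomial.X 2),
      MvPolynomial.C (2 * u 0)⁻¹ * (MvPolynomial.X 1 - MvPolynomial.X 0), 0] (i.1 : Fin 4)

lemma FL_retr (u : Fin 3 → ℂ) (h0 : u 0 ≠ 0) (h2 : u 2 ≠ 0) :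
    Retr (fun k' => MvPolynomial.aeval (Sum.elim MvPolynomial.X (fun j => MvPolynomial.C (u j))) (FL k') :
      Fin 3 → MvPolynomial (Option I3) ℂ) := by
  refine ⟨MvPolynomial.aeval (wL u), fun k => ?_⟩
  have e2 : (2 : MvPolynomial (Fin 3) ℂ) = MvPolynomial.C 2 := (map_ofNat MvPolynomial.C 2).symm
  have q0 : (MvPolynomial.C (u 0) : MvPolynomial (Fin 3) ℂ) * MvPolynomial.C (u 0)⁻¹ = 1 := by
    rw [← map_mul, mul_inv_cancel₀ h0, map_one]
  have q1 : (MvPolynomial.C (u 0) : MvPolynomial (Fin 3) ℂ) * (2 * MvPolynomial.C (2 * u 0)⁻¹) = 1 := by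
    rw [e2, ← map_mul, ← map_mul]
    have : u 0 * (2 * (2 * u 0)⁻¹) = 1 := by field_simp
    rw [this, map_one]
  have q2 : (MvPolynomial.C (u 2) : MvPolynomial (Fin 3) ℂ) * MvPolynomial.C (u 2)⁻¹ = 1 := by
    rw [← map_mul, mul_inv_cancel₀ h2, map_one]
  have hn : wL u none = 0 := rfl
  have w0 : wL u (i3 0 (by decide)) = MvPolynomial.C (u 0)⁻¹ * MvPolynomial.X 0 := rfl
  have w1 : wL u (i3 1 (by decide)) =
    MvPolynomial.C (u 2)⁻¹ * (MvPolynomial.C (u 1) * MvPolynomial.C (u 0)⁻¹ * MvPolynomial.X 0 - MvPolynomial.X 2) := rfl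
  have w2 : wL u (i3 2 (by decide)) = MvPolynomial.C (2 * u 0)⁻¹ * (MvPolynomial.X 1 - MvPolynomial.X 0) := rfl
  have hC : ∀ a : ℂ, MvPolynomial.aeval (wL u) (MvPolynomial.C a) = MvPolynomial.C a := fun a => MvPolynomial.aeval_C _ _
  rcases (show k = 0 ∨ k = 1 ∨ k = 2 by fin_cases k <;> simp) with rfl | rfl | rfl
  · beta_reduce
    rw [FL_ev0, map_mul, hC, MvPolynomial.aeval_X, w0]
    linear_combination MvPolynomial.X 0 * q0
  · beta_reduce
    rw [FL_ev1, map_mul, map_add, map_mul, map_ofNat, hC, MvPolynomial.aeval_X, MvPolynomial.aeval_X, w0, w2]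
    linear_combination MvPolynomial.X 0 * q0 + (MvPolynomial.X 1 - MvPolynomial.X 0) * q1
  · beta_reduce
    rw [FL_ev2, map_sub, map_add, map_mul, map_mul, map_mul, map_mul, hC, hC, MvPolynomial.aeval_X, MvPolynomial.aeval_X,
      MvPolynomial.aeval_X, w0, w1, hn]
    linear_combination (MvPolynomial.X 2 - MvPolynomial.C (u 1) * MvPolynomial.C (u 0)⁻¹ * MvPolynomial.X 0) * q2

theorem link_leg (G m : ℕ) : LinkR (fun ξ g (i : Option I3) => vc G hL ξ g (i.map Subtype.val)) yL DL (-(G : ℤ)) (Fin 3)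
    m 3 (G + 4) := by
  intro K ξ _ _
  obtain ⟨α₀, β, hβ, -, h2⟩ := second
  refine ⟨![((Real.pi / 2 : ℝ) : ℂ), ((α₀ + β / 2 * Real.log (ξ : ℂ).re : ℝ) : ℂ), ((β / 2 : ℝ) : ℂ)],
    fun g hg hgξ hD => ⟨FL, FL_deg, FL_retr _ ?_ ?_, fun k => ?_⟩⟩
  · have := Real.pi_pos
    simp
  · simpa using hβ
  obtain ⟨him, hre⟩ := hD
  have hz : (ξ : ℂ) + ((-(G : ℤ) : ℤ) : ℂ) * g = (ξ : ℂ) - ((G * g : ℕ) : ℂ) := by push_cast; ring
  rw [hz] at him hre ⊢
  have hx : ((ξ : ℂ).re : ℂ) = (ξ : ℂ) := by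
    apply Complex.ext
    · simp
    · rw [Complex.ofReal_im]
      rw [Complex.sub_im, Complex.natCast_im, sub_zero] at him
      exact him.symm
  set x : ℝ := (ξ : ℂ).re with hxdef
  have hre' : 1 < x - (G * g : ℕ) := by
    rw [Complex.sub_re, Complex.natCast_re] at hre
    exact hre
  have hGg0 : (0 : ℝ) ≤ ((G * g : ℕ) : ℝ) := Nat.cast_nonneg _
  have hx0 : 0 < x := by linarith
  have hnorm : ‖(ξ : ℂ)‖ = x := by rw [← hx, Complex.norm_real, Real.norm_eq_abs, abs_of_pos hx0]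
  have hbig : ((G * g : ℕ) : ℝ) + 9 ≤ x := by
    rw [← hnorm]
    refine le_trans ?_ hgξ
    have h3 : G * g + 9 ≤ (g + 2) ^ (G + 4) := by
      have h1 : G + 1 ≤ 3 ^ G := by
        have : G < 3 ^ G := Nat.lt_pow_self (by norm_num)
        omega
      have h3 : 3 ^ G ≤ (g + 2) ^ G := Nat.pow_le_pow_left (by omega) _
      have h4 : (G + 1) * (g + 2) ^ 4 ≤ (g + 2) ^ G * (g + 2) ^ 4 := Nat.mul_le_mul_right _ (h1.trans h3)
      have h5 : (g + 2) ^ (G + 4) = (g + 2) ^ G * (g + 2) ^ 4 := by ring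
      rw [h5]
      refine le_trans ?_ h4
      have h6 : (g + 2) * 27 ≤ (g + 2) ^ 4 := by
        have : 3 ^ 3 ≤ (g + 2) ^ 3 := Nat.pow_le_pow_left (by omega) _
        calc (g + 2) * 27 ≤ (g + 2) * (g + 2) ^ 3 := Nat.mul_le_mul_left _ this
          _ = (g + 2) ^ 4 := by ring
      refine le_trans ?_ (Nat.mul_le_mul_left _ h6)
      nlinarith [Nat.zero_le (G * g)]
    exact_mod_cast h3
  set z : ℝ := x - (G * g : ℕ) with hzdef
  have hz9 : 9 ≤ z := by rw [hzdef]; linarith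
  have hzC : (ξ : ℂ) - ((G * g : ℕ) : ℂ) = ((z : ℝ) : ℂ) := by
    rw [hzdef, ← hx]
    push_cast
    ring
  rw [hzC]
  have hs : 1 / z ∈ Set.Ioo (0 : ℝ) (1 / 8) := by
    constructor
    · positivity
    · rw [div_lt_div_iff₀ (by linarith) (by norm_num)]
      linarith
  have habs : |1 / z| ≤ 1 / 8 := by rw [abs_of_pos hs.1]; exact hs.2.le
  have hlog : Real.log z = Real.log x + Real.log (1 - ((G * g : ℕ) : ℝ) / x) := by
    have h5 : 1 - ((G * g : ℕ) : ℝ) / x = z / x := by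
      rw [hzdef]
      field_simp
    rw [h5, Real.log_div (by linarith) hx0.ne']
    ring
  have v0 : ∀ j : Fin 4, vc G hL (ξ : ℂ) g (some j) = ((E (hL j) (1 / z) : ℝ) : ℂ) := by
    intro j
    show evc (1 / ((ξ : ℂ) - ((G * g : ℕ) : ℂ))) (hL j) = _
    rw [hzC, ← evc_real]
    push_cast
    rfl
  have vn : vc G hL (ξ : ℂ) g none = ((Real.log (1 - ((G * g : ℕ) : ℝ) / x) : ℝ) : ℂ) := by
    show Complex.log (1 - ((G * g : ℕ) : ℂ) / ξ) = _
    rw [← hx, Complex.ofReal_log]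
    · push_cast
      rfl
    · have h5 : ((G * g : ℕ) : ℝ) / x ≤ 1 := by
        rw [div_le_one hx0]
        linarith
      linarith
  have hP := (h2 (1 / z) hs).1
  have hF := KK_F hs
  have hG := EE_G hs
  have e0 : hL 0 = Fs := rfl
  have e1 : hL 1 = 2 * Hs := rfl
  have e2 : hL 2 = PowerSeries.C (1 / 2 : ℚ) * (Gs - Fs) := rfl
  have v00 : vc G hL (ξ : ℂ) g ((i3 0 (by decide)).map Subtype.val) = ((E Fs (1 / z) : ℝ) : ℂ) := v0 0
  have v01 : vc G hL (ξ : ℂ) g ((i3 1 (by decide)).map Subtype.val) = ((2 * E Hs (1 / z) : ℝ) : ℂ) := by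
    rw [← E_two_H habs]
    exact v0 1
  have v02 : vc G hL (ξ : ℂ) g ((i3 2 (by decide)).map Subtype.val) =
      ((1 / 2 * (E Gs (1 / z) - E Fs (1 / z)) : ℝ) : ℂ) := by
    rw [← E_half habs]
    exact v0 2
  have vn' : vc G hL (ξ : ℂ) g ((none : Option I3).map Subtype.val) =
    ((Real.log (1 - ((G * g : ℕ) : ℝ) / x) : ℝ) : ℂ) := vn
  rcases (show k = 0 ∨ k = 1 ∨ k = 2 by fin_cases k <;> simp) with rfl | rfl | rfl
  · rw [FL_ev0]
    beta_reduce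
    rw [v00]
    show ((KK (1 / ((z : ℝ) : ℂ).re) : ℝ) : ℂ) = ((Real.pi / 2 : ℝ) : ℂ) * ((E Fs (1 / z) : ℝ) : ℂ)
    rw [Complex.ofReal_re, hF]
    push_cast
    rfl
  · rw [FL_ev1]
    beta_reduce
    rw [v00, v02]
    show ((EE (1 / ((z : ℝ) : ℂ).re) : ℝ) : ℂ) = ((Real.pi / 2 : ℝ) : ℂ) *
      (2 * ((1 / 2 * (E Gs (1 / z) - E Fs (1 / z)) : ℝ) : ℂ) + ((E Fs (1 / z) : ℝ) : ℂ))
    rw [Complex.ofReal_re, hG]
    push_cast
    ring
  · rw [FL_ev2]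
    beta_reduce
    rw [v00, v01, vn']
    show ((KK (1 - 1 / ((z : ℝ) : ℂ).re) : ℝ) : ℂ) = ((β / 2 : ℝ) : ℂ) *
      (((Real.log (1 - ((G * g : ℕ) : ℝ) / x) : ℝ) : ℂ) * ((E Fs (1 / z) : ℝ) : ℂ)) +
      ((α₀ + β / 2 * Real.log x : ℝ) : ℂ) * ((E Fs (1 / z) : ℝ) : ℂ) -
      ((β / 2 : ℝ) : ℂ) * ((2 * E Hs (1 / z) : ℝ) : ℂ)
    rw [Complex.ofReal_re, hP]
    simp only [Ph, one_div, Real.log_inv, hlog]
    push_cast
    ring

theorem win_leg (m : ℕ) : ∃ G : ℕ, 1 ≤ G ∧ WinN yL DL (-(G : ℤ)) m := by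
  obtain ⟨T, A, hT⟩ := gfs_leg
  obtain ⟨G, hG1, hG⟩ := nrsN (t_famN hT) hT.hsize
  exact ⟨G, hG1, win (hG G le_rfl I3 free_leg) (link_leg G m).toN⟩

end Pool.Agent.Q246.AF
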