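import Pool.Agent.Q246.AF.Fld
import Pool.Agent.Q246.NR.Len

/-!
# Asymptotic numbers: polynomials
-/

set_option autoImplicit false

open Filter

namespace Pool.Agent.Q246.AF

open Pool.Agent.Y118.UL Pool.Agent.Q246.NR

variable {w : ℕ → ℝ} {hw : Sc w}

/-- evaluation of the sequences -/
def ev (w : ℕ → ℝ) (hw : Sc w) (n : ℕ) : SB w hw →+* ℂ := (Pi.evalRingHom (fun _ : ℕ => ℂ) n).comp (SB w hw).subtype

lemma ev_apply (n : ℕ) (f : SB w hw) : ev w hw n f = f.1 n := rfl

lemma ev_zs (n : ℕ) (a : ZB w hw) : ev w hw n (zs w hw a) = ((a.1 n : ℤ) : ℂ) := rfl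

lemma cl_eq_zero' {f : SB w hw} : cl w hw f = 0 ↔ Ti w (fun n => ev w hw n f) := cl_eq_zero

/-- rational constants -/
noncomputable def rt (w : ℕ → ℝ) (hw : Sc w) : ℚ →+* SB w hw :=
  RingHom.codRestrict ((Pi.constRingHom ℕ ℂ).comp (algebraMap ℚ ℂ)) (SB w hw) fun q => Bd.const hw _

lemma ev_rt (n : ℕ) (q : ℚ) : ev w hw n (rt w hw q) = (q : ℂ) := rfl

lemma bd_of_le {f : ℕ → ℂ} (hf : ∀ n, ‖f n‖ ≤ w n) : Bd w f := ⟨1, Eventually.of_forall fun n => by
  rw [pow_one]
  exact hf n⟩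

/-- dependence from sequences of near relations -/
theorem dep_of {κ : Type} [Fintype κ] (z : κ → SB w hw) (D : ℕ) (Q : ℕ → MvPolynomial κ ℤ)
    (hd : ∀ n, (Q n).totalDegree ≤ D) (hne : ∀ n, Q n ≠ 0) (hlen : ∀ n, len (Q n) ≤ w n)
    (h0 : ∀ n, ‖MvPolynomial.aeval (fun i => (z i).1 n) (Q n)‖ ≤ (w n ^ n)⁻¹) :
    ¬ AlgebraicIndependent (FZ w hw) (fun i => cl w hw (z i)) := by
  classical
  intro hind
  have hfin : {m : κ →₀ ℕ | (m.sum fun _ e => e) ≤ D}.Finite := by
    refine Set.Finite.subset (Set.finite_Iic (Finsupp.equivFunOnFinite.symm fun _ => D)) ?_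
    intro m hm i
    have h1 : m i ≤ m.sum fun _ e => e := by
      by_cases hi : i ∈ m.support
      · exact Finset.single_le_sum (f := fun i => m i) (fun _ _ => Nat.zero_le _) hi
      · rw [Finsupp.notMem_support_iff.1 hi]
        exact Nat.zero_le _
    exact h1.trans hm
  set T := hfin.toFinset with hT
  have hsup : ∀ n, (Q n).support ⊆ T := fun n m hm => by
    rw [hT, Set.Finite.mem_toFinset]
    exact (MvPolynomial.le_totalDegree hm).trans (hd n)
  let q : (κ →₀ ℕ) → ZB w hw := fun m => ⟨fun n => (Q n).coeff m, bd_of_le fun n => by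
    rw [Complex.norm_intCast]
    exact (abs_coeff_le_len (Q n) m).trans (hlen n)⟩
  set P : MvPolynomial κ (FZ w hw) := ∑ m ∈ T, MvPolynomial.monomial m ⟨zc w hw (q m), zc_mem (q m)⟩ with hP
  have hPc : ∀ m ∈ T, P.coeff m = ⟨zc w hw (q m), zc_mem (q m)⟩ := by
    intro m hm
    rw [hP, MvPolynomial.coeff_sum, Finset.sum_eq_single m]
    · rw [MvPolynomial.coeff_monomial, if_pos rfl]
    · intro b _ hb
      rw [MvPolynomial.coeff_monomial, if_neg hb]
    · intro h
      exact absurd hm h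
  have hval : MvPolynomial.aeval (fun i => cl w hw (z i)) P =
      cl w hw (∑ m ∈ T, zs w hw (q m) * m.prod fun i k => z i ^ k) := by
    rw [hP, map_sum, map_sum]
    refine Finset.sum_congr rfl fun m _ => ?_
    rw [MvPolynomial.aeval_monomial, map_mul, map_finsuppProd]
    simp only [map_pow]
    rfl
  have hzero : MvPolynomial.aeval (fun i => cl w hw (z i)) P = 0 := by
    rw [hval, cl_eq_zero']
    intro k
    filter_upwards [ev_ge k] with n hn
    have h1 : ev w hw n (∑ m ∈ T, zs w hw (q m) * m.prod fun i k => z i ^ k) =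
        MvPolynomial.aeval (fun i => (z i).1 n) (Q n) := by
      rw [map_sum]
      conv_rhs => rw [(Q n).as_sum]
      rw [map_sum]
      rw [← Finset.sum_subset (hsup n)]
      · refine Finset.sum_congr rfl fun m _ => ?_
        rw [MvPolynomial.aeval_monomial, map_mul, map_finsuppProd, ev_zs]
        simp only [map_pow]
        rfl
      · intro m _ hm
        rw [map_mul, ev_zs]
        have : (q m).1 n = 0 := MvPolynomial.notMem_support_iff.1 hm
        rw [this, Int.cast_zero, zero_mul]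
    rw [h1]
    refine (h0 n).trans ?_
    have h2 := hw.pos n
    refine inv_anti₀ (by positivity) ?_
    exact pow_le_pow_right₀ (hw.one n) hn
  have hP0 : P = 0 := (algebraicIndependent_iff.1 hind) P hzero
  have h5 : ∀ m ∈ T, ∀ᶠ n in (hyperfilter ℕ : Filter ℕ), (Q n).coeff m = 0 := by
    intro m hm
    have h6 := hPc m hm
    rw [hP0, MvPolynomial.coeff_zero] at h6
    exact zc_eq_zero.1 (congrArg Subtype.val h6).symm
  obtain ⟨n, hn⟩ := ((Finset.eventually_all _).2 h5).exists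
  apply hne n
  ext m
  rw [MvPolynomial.coeff_zero]
  by_cases hm : m ∈ (Q n).support
  · exact hn m (hsup n hm)
  · exact MvPolynomial.notMem_support_iff.1 hm

theorem alg_of (x : SB w hw) (D : ℕ) (p : ℕ → Polynomial ℤ) (hd : ∀ n, (p n).natDegree ≤ D) (hne : ∀ n, p n ≠ 0)
    (hc : ∀ n j, |(((p n).coeff j : ℤ) : ℝ)| ≤ w n) (h0 : ∀ n, Polynomial.aeval (x.1 n) (p n) = 0) :
    IsAlgebraic (FZ w hw) (cl w hw x) := by
  classical
  let q : ℕ → ZB w hw := fun j => ⟨fun n => (p n).coeff j, bd_of_le fun n => by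
    rw [Complex.norm_intCast]
    exact hc n j⟩
  refine ⟨∑ j ∈ Finset.range (D + 1), Polynomial.C (⟨zc w hw (q j), zc_mem (q j)⟩ : FZ w hw) * Polynomial.X ^ j, ?_, ?_⟩
  · intro h
    have h1 : ∀ j ∈ Finset.range (D + 1), ∀ᶠ n in (hyperfilter ℕ : Filter ℕ), (p n).coeff j = 0 := by
      intro j hj
      have h2 := congrArg (fun P => Polynomial.coeff P j) h
      simp only [Polynomial.finsetSum_coeff, Polynomial.coeff_C_mul, Polynomial.coeff_X_pow, Polynomial.coeff_zero] at h2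
      rw [Finset.sum_eq_single j] at h2
      · rw [if_pos rfl, mul_one] at h2
        exact zc_eq_zero.1 (congrArg Subtype.val h2)
      · intro b _ hb
        rw [if_neg hb.symm, mul_zero]
      · intro h3
        exact absurd hj h3
    obtain ⟨n, hn⟩ := ((Finset.eventually_all _).2 h1).exists
    apply hne n
    ext j
    rw [Polynomial.coeff_zero]
    by_cases hj : j ∈ Finset.range (D + 1)
    · exact hn j hj
    · rw [Finset.mem_range, not_lt] at hj
      exact Polynomial.coeff_eq_zero_of_natDegree_lt (by have := hd n; omega)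
  · have h1 : Polynomial.aeval (cl w hw x) (∑ j ∈ Finset.range (D + 1),
        Polynomial.C (⟨zc w hw (q j), zc_mem (q j)⟩ : FZ w hw) * Polynomial.X ^ j) =
        cl w hw (∑ j ∈ Finset.range (D + 1), zs w hw (q j) * x ^ j) := by
      rw [map_sum, map_sum]
      refine Finset.sum_congr rfl fun j _ => ?_
      rw [map_mul, Polynomial.aeval_C, map_pow, Polynomial.aeval_X, map_mul, map_pow]
      rfl
    rw [h1, cl_eq_zero']
    refine Ti.zero hw (Eventually.of_forall fun n => ?_)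
    rw [map_sum]
    have h2 := h0 n
    rw [Polynomial.aeval_eq_sum_range' (Nat.lt_succ_of_le (hd n))] at h2
    rw [← h2]
    refine Finset.sum_congr rfl fun j _ => ?_
    rw [map_mul, map_pow, ev_zs, ev_apply, zsmul_eq_mul]

lemma cl_rt : (cl w hw).comp (rt w hw) = algebraMap ℚ (Om w hw) := Subsingleton.elim _ _

/-- the value of a rational polynomial -/
noncomputable def pv (x : SB w hw) : Polynomial ℚ →+* SB w hw := Polynomial.eval₂RingHom (rt w hw) x

lemma cl_pv (x : SB w hw) : (cl w hw).comp (pv x) = (Polynomial.aeval (cl w hw x) : Polynomial ℚ →ₐ[ℚ] Om w hw).toRingHom := by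
  refine Polynomial.ringHom_ext (fun a => ?_) ?_
  · show cl w hw (pv x (Polynomial.C a)) = Polynomial.aeval (cl w hw x) (Polynomial.C a)
    rw [pv, Polynomial.coe_eval₂RingHom, Polynomial.eval₂_C, Polynomial.aeval_C, ← cl_rt]
    rfl
  · show cl w hw (pv x Polynomial.X) = Polynomial.aeval (cl w hw x) Polynomial.X
    rw [pv, Polynomial.coe_eval₂RingHom, Polynomial.eval₂_X, Polynomial.aeval_X]

lemma ev_pv (x : SB w hw) (n : ℕ) : (ev w hw n).comp (pv x) = (Polynomial.aeval (x.1 n) : Polynomial ℚ →ₐ[ℚ] ℂ).toRingHom := by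
  refine Polynomial.ringHom_ext (fun a => ?_) ?_
  · show ev w hw n (pv x (Polynomial.C a)) = Polynomial.aeval (x.1 n) (Polynomial.C a)
    rw [pv, Polynomial.coe_eval₂RingHom, Polynomial.eval₂_C, Polynomial.aeval_C]
    rfl
  · show ev w hw n (pv x Polynomial.X) = Polynomial.aeval (x.1 n) Polynomial.X
    rw [pv, Polynomial.coe_eval₂RingHom, Polynomial.eval₂_X, Polynomial.aeval_X]
    rfl

/-- not small -/
lemma not_ti {f : ℕ → ℂ} {κ : ℝ} (hκ : 0 < κ) (k : ℕ)
    (h : ∀ᶠ n in (hyperfilter ℕ : Filter ℕ), κ * (w n ^ k)⁻¹ ≤ ‖f n‖) (hw : Sc w) : ¬ Ti w f := by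
  intro hT
  obtain ⟨n, h1, h2, h3⟩ := (h.and ((hT (k + 1)).and (ev_ge ⌈κ⁻¹⌉₊))).exists
  have hp := hw.pos n
  have h4 : κ * (w n ^ k)⁻¹ ≤ (w n ^ (k + 1))⁻¹ := h1.trans h2
  have h5 : κ⁻¹ ≤ (n : ℝ) := (Nat.le_ceil _).trans (by exact_mod_cast h3)
  have h6 := hw n
  have h7 : κ * w n ≤ 1 := by
    have h8 := mul_le_mul_of_nonneg_right h4 (show 0 ≤ w n ^ (k + 1) by positivity)
    rw [inv_mul_cancel₀ (by positivity)] at h8
    have h9 : κ * (w n ^ k)⁻¹ * w n ^ (k + 1) = κ * w n := by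
      rw [pow_succ]
      field_simp
    rwa [h9] at h8
  have h8 : κ * κ⁻¹ < κ * w n := mul_lt_mul_of_pos_left (by linarith) hκ
  rw [mul_inv_cancel₀ hκ.ne'] at h8
  linarith

theorem root_of (x : SB w hw) (hx : ∀ ε : ℝ, 0 < ε → ∀ᶠ n in (hyperfilter ℕ : Filter ℕ), x.1 n ≠ 0 ∧ ‖x.1 n‖ < ε)
    (hxw : ∀ n, x.1 n ≠ 0 → 1 / ‖x.1 n‖ ≤ w n) (c : Polynomial ℚ) (hc : c ≠ 0) :
    Polynomial.aeval (cl w hw x) c ≠ 0 := by
  obtain ⟨q, hq, hq0⟩ := Polynomial.exists_eq_pow_rootMultiplicity_mul_and_not_dvd c hc 0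
  rw [Polynomial.dvd_iff_isRoot, Polynomial.IsRoot.def] at hq0
  rw [map_zero, sub_zero] at hq
  rw [hq, map_mul, map_pow, Polynomial.aeval_X]
  have hx0 : cl w hw x ≠ 0 := by
    rw [Ne, cl_eq_zero]
    refine not_ti one_pos 1 ?_ hw
    filter_upwards [hx 1 one_pos] with n hn
    have h1 := hxw n hn.1
    have h2 : 0 < ‖x.1 n‖ := norm_pos_iff.2 hn.1
    have h3 := hw.pos n
    rw [pow_one, one_mul]
    rw [div_le_iff₀ h2] at h1
    rw [inv_le_iff_one_le_mul₀ h3, mul_comm]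
    exact h1
  refine mul_ne_zero (pow_ne_zero _ hx0) ?_
  have h1 : Polynomial.aeval (cl w hw x) q = cl w hw (pv x q) := (DFunLike.congr_fun (cl_pv x) q).symm
  rw [h1, Ne, cl_eq_zero']
  -- the limit
  have hcont : Continuous fun t : ℂ => Polynomial.aeval t q := Polynomial.continuous_aeval q
  have h0 : Polynomial.aeval (0 : ℂ) q ≠ 0 := by
    rw [← Polynomial.coeff_zero_eq_aeval_zero' q, Polynomial.coeff_zero_eq_eval_zero]
    intro h
    exact hq0 (by simpa using h)
  obtain ⟨ε, hε, hball⟩ := Metric.continuousAt_iff.1 hcont.continuousAt (‖Polynomial.aeval (0 : ℂ) q‖ / 2)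
    (by have := norm_pos_iff.2 h0; positivity)
  refine not_ti (κ := ‖Polynomial.aeval (0 : ℂ) q‖ / 2) (by have := norm_pos_iff.2 h0; positivity) 0 ?_ hw
  filter_upwards [hx ε hε] with n hn
  have h2 : ev w hw n (pv x q) = Polynomial.aeval (x.1 n) q := DFunLike.congr_fun (ev_pv x n) q
  rw [h2]
  have h3 := hball (x := x.1 n) (by rw [dist_zero_right]; exact hn.2)
  rw [dist_eq_norm] at h3
  have h4 : ‖Polynomial.aeval (0 : ℂ) q‖ ≤ ‖Polynomial.aeval (x.1 n) q‖ + ‖Polynomial.aeval (x.1 n) q - Polynomial.aeval (0 : ℂ) q‖ := by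
    have h5 := norm_sub_le (Polynomial.aeval (x.1 n) q) (Polynomial.aeval (x.1 n) q - Polynomial.aeval (0 : ℂ) q)
    rwa [sub_sub_cancel] at h5
  rw [pow_zero, inv_one, mul_one]
  linarith

/-- relations with polynomial coefficients -/
theorem rel_of {r : ℕ} (x : SB w hw) (z : Fin r → SB w hw) (R : MvPolynomial (Fin r) (Polynomial ℚ))
    (h : ∀ᶠ n in (hyperfilter ℕ : Filter ℕ), MvPolynomial.eval₂ (Polynomial.aeval (x.1 n) : Polynomial ℚ →ₐ[ℚ] ℂ).toRingHom
      (fun j => (z j).1 n) R = 0) :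
    MvPolynomial.eval₂ (Polynomial.aeval (cl w hw x) : Polynomial ℚ →ₐ[ℚ] Om w hw).toRingHom
      (fun j => cl w hw (z j)) R = 0 := by
  have h1 := MvPolynomial.eval₂_comp_left (cl w hw) (pv x) z R
  rw [cl_pv] at h1
  refine Eq.trans ?_ (h1.symm.trans ?_)
  · rfl
  · rw [cl_eq_zero']
    refine Ti.zero hw ?_
    filter_upwards [h] with n hn
    have h2 := MvPolynomial.eval₂_comp_left (ev w hw n) (pv x) z R
    rw [ev_pv] at h2
    rw [h2]
    exact hn

end Pool.Agent.Q246.AF
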